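import Pool.Agent.H23.GU.Up
import Pool.Agent.H7.Bir.Open
import Pool.Agent.H7.Qup.Bd

/-!
# GT Up: the four properties go up along dominant rational maps of the same dimension

`ggl_up`: let the function field of the projective variety `X` be embedded in that of the projective variety `X'` of the same dimension.  If `X` has the four
properties, then so has `X'` (all of them, with the fourth one for subvarieties of every dimension).  `open_up`: so has every nonempty Zariski open subset of `X'`.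
-/

set_option autoImplicit false

open Topology Filter MvPolynomial

noncomputable section

namespace Pool.Agent.GT

open Pool.Agent.H17 (PN VanishesAt HolomorphicInto puncturedDisc vanishesAt_mk_iff ZariskiClosedIn)
open Pool.Agent.H17GT (coordFun)
open Pool.Agent.H17LG.Variety (FunField IsLogGeneralType ratio)
open Pool.Agent.H17R (gen gen_eq_zero_iff ratio_self adjoin_ratio coordFun_ne_zero_iff)
open Pool.Agent.H62.FC (Homog)
open Pool.Agent.H62.SA (locVar OnBd)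
open Pool.Agent.H17EF (projVar)
open Pool.Agent.H7.Bir (vals rmap vanishesAt_rmap eval_comp mem_of_open GGL GGLOpen open_four)
open Pool.Agent.H7.Qup (IsDominantMap Rep exists_compat isLGT_of_algebraic exists_eq_aux aeval_homog)
open Pool.Agent.H22.TB (GGLC)

variable {N M : ℕ}

theorem comp_component {D : ℕ} (hD : 0 < D) {γ : Fin (N + 1) → MvPolynomial (Fin (M + 1)) ℂ} (hγ : ∀ i, (γ i).IsHomogeneous D) (F : MvPolynomial (Fin (N + 1)) ℂ) (n : ℕ) :
    homogeneousComponent (D * n) (aeval γ F) = aeval γ (homogeneousComponent n F) := by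
  have h1 : ∀ m, homogeneousComponent (D * n) (aeval γ (homogeneousComponent m F)) = if m = n then aeval γ (homogeneousComponent n F) else 0 := by
    intro m
    have h2 : (aeval γ (homogeneousComponent m F)).IsHomogeneous (D * m) := aeval_homog hγ (homogeneousComponent_isHomogeneous m F)
    rw [homogeneousComponent_of_mem (n := D * m) ((mem_homogeneousSubmodule _ _).2 h2)]
    by_cases h3 : m = n
    · rw [if_pos h3, if_pos (by rw [h3]), h3]
    · rw [if_neg h3, if_neg fun h4 => h3 (Nat.eq_of_mul_eq_mul_left hD h4).symm]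
  conv_lhs => rw [← sum_homogeneousComponent F, map_sum, map_sum]
  simp only [h1]
  rw [Finset.sum_ite_eq' (Finset.range (F.totalDegree + 1)) n]
  split_ifs with h3
  · rfl
  · rw [homogeneousComponent_eq_zero _ _ (by rw [Finset.mem_range] at h3; omega), map_zero]

/-- the ideal of the closure of the image of a subvariety -/
def imI (γ : Fin (N + 1) → MvPolynomial (Fin (M + 1)) ℂ) (Q' : Ideal (MvPolynomial (Fin (M + 1)) ℂ)) : Ideal (MvPolynomial (Fin (N + 1)) ℂ) :=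
  Q'.comap (aeval γ : MvPolynomial (Fin (N + 1)) ℂ →ₐ[ℂ] MvPolynomial (Fin (M + 1)) ℂ)

theorem mem_imI {γ : Fin (N + 1) → MvPolynomial (Fin (M + 1)) ℂ} {Q' : Ideal (MvPolynomial (Fin (M + 1)) ℂ)} {F : MvPolynomial (Fin (N + 1)) ℂ} :
    F ∈ imI γ Q' ↔ aeval γ F ∈ Q' := Iff.rfl

instance {γ : Fin (N + 1) → MvPolynomial (Fin (M + 1)) ℂ} {Q' : Ideal (MvPolynomial (Fin (M + 1)) ℂ)} [Q'.IsPrime] : (imI γ Q').IsPrime :=
  Ideal.IsPrime.comap _

theorem imI_homog {D : ℕ} (hD : 0 < D) {γ : Fin (N + 1) → MvPolynomial (Fin (M + 1)) ℂ} (hγ : ∀ i, (γ i).IsHomogeneous D)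
    {Q' : Ideal (MvPolynomial (Fin (M + 1)) ℂ)} (hQ' : Homog Q') : Homog (imI γ Q') := by
  intro F hF n
  rw [mem_imI] at hF ⊢
  rw [← comp_component hD hγ]
  exact hQ' _ hF _

/-- the map to the closure of the image -/
theorem imI_dom {D : ℕ} {γ : Fin (N + 1) → MvPolynomial (Fin (M + 1)) ℂ} (hγ : ∀ i, (γ i).IsHomogeneous D)
    {Q' : Ideal (MvPolynomial (Fin (M + 1)) ℂ)} [Q'.IsPrime] (hQ' : Homog Q') {i₀ : Fin (N + 1)} (hne : (locVar Q' fun _ : Fin 1 => γ i₀).Nonempty) :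
    IsDominantMap (imI γ Q') Q' (fun _ : Fin 1 => X i₀) (fun _ : Fin 1 => γ i₀) (rmap γ) := by
  have hv : ∀ y ∈ locVar Q' fun _ : Fin 1 => γ i₀, vals γ y.rep ≠ 0 := by
    rintro y ⟨-, l, hy⟩ h0
    exact hy (congrFun h0 i₀)
  refine ⟨?_, ?_, ?_⟩
  · intro y hy
    refine ⟨fun F hF n hn => ?_, 0, ?_⟩
    · rw [vanishesAt_rmap (hv y hy) hn]
      exact hy.1 _ hF _ (aeval_homog hγ hn)
    · rw [vanishesAt_rmap (hv y hy) (isHomogeneous_X ℂ i₀), aeval_X]
      obtain ⟨-, l, h⟩ := hy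
      exact h
  · exact fun y hy => ⟨D, γ, hγ, hv y hy, fun _ _ _ => rfl⟩
  · intro F n hF h
    rw [mem_imI]
    refine mem_of_open hQ' (fun _ => ⟨D, hγ i₀⟩) hne (aeval_homog hγ hF) fun y hy => ?_
    rw [← vanishesAt_rmap (hv y hy) hF]
    exact h y hy

/-- If the coordinates satisfy the equations, then the function field of the subvariety is an algebraic extension of the function field of its image, and
general type goes up. -/
theorem gt_of_image {D : ℕ} {γ : Fin (N + 1) → MvPolynomial (Fin (M + 1)) ℂ} (hγ : ∀ i, (γ i).IsHomogeneous D)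
    {Q' : Ideal (MvPolynomial (Fin (M + 1)) ℂ)} [Q'.IsPrime] (hQ' : Homog Q') {i₀ : Fin (N + 1)} (hi₀ : γ i₀ ∉ Q') {j : Fin (M + 1)} (hj : X j ∉ Q')
    (halg : ∀ i : Fin (M + 1), ∃ (m D₁ : ℕ) (α : Fin (m + 1) → MvPolynomial (Fin (N + 1)) ℂ), (∀ l, (α l).IsHomogeneous D₁) ∧ α (Fin.last m) ∉ imI γ Q' ∧
      ∑ l : Fin (m + 1), aeval γ (α l) * X i ^ (l : ℕ) * X j ^ (m - (l : ℕ)) ∈ Q')
    {w : ℕ} (hz' : ∃ z' : Fin w → FunField Q', IsTranscendenceBasis ℂ z')
    (hgt : (∃ z : Fin w → FunField (imI γ Q'), IsTranscendenceBasis ℂ z) → IsLogGeneralType (K := FunField (imI γ Q')) (k := w) fun _ => False) :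
    IsLogGeneralType (K := FunField Q') (k := w) fun _ => False := by
  obtain ⟨y₁, hy₁, hy₁γ⟩ := Pool.Agent.H17EF.exists_point hQ' ⟨j, hj⟩ hi₀ (hγ i₀)
  have hne : (locVar Q' fun _ : Fin 1 => γ i₀).Nonempty := ⟨y₁, hy₁, 0, hy₁γ⟩
  have hp := imI_dom hγ hQ' hne
  obtain ⟨e, he⟩ := exists_compat hp hQ' (fun _ => ⟨D, hγ i₀⟩) hne
  have hcj : coordFun Q' j ≠ 0 := coordFun_ne_zero_iff.2 hj
  have hXi : (X i₀ : MvPolynomial (Fin (N + 1)) ℂ) ∉ imI γ Q' := by
    rw [mem_imI, aeval_X]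
    exact hi₀
  have hci : coordFun (imI γ Q') i₀ ≠ 0 := coordFun_ne_zero_iff.2 hXi
  have hc : gen Q' j (γ i₀) ≠ 0 := fun h0 => hi₀ ((gen_eq_zero_iff hcj (hγ i₀)).1 h0)
  have hcomp := he D γ ⟨hγ, fun _ _ _ => rfl⟩ ⟨y₁, ⟨hy₁, 0, hy₁γ⟩, fun h0 => hy₁γ (congrFun h0 i₀)⟩ j hj i₀ hXi
  let _ : Algebra (FunField (imI γ Q')) (FunField Q') := e.toRingHom.toAlgebra
  have _ : IsScalarTower ℂ (FunField (imI γ Q')) (FunField Q') := IsScalarTower.of_algebraMap_eq fun c => (e.commutes c).symm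
  have halg' : ∀ i, IsAlgebraic (FunField (imI γ Q')) (ratio Q' i j) := by
    intro i
    obtain ⟨m, D₁, α, hα, hαP, hrel⟩ := halg i
    set Fi : MvPolynomial (Fin (M + 1)) ℂ := ∑ l : Fin (m + 1), aeval γ (α l) * X i ^ (l : ℕ) * X j ^ (m - (l : ℕ)) with hFi
    have hFhom : Fi.IsHomogeneous (D * D₁ + m) := by
      refine IsHomogeneous.sum _ _ _ fun l _ => ?_
      have h1 := ((aeval_homog hγ (hα l)).mul ((isHomogeneous_X ℂ i).pow (l : ℕ))).mul ((isHomogeneous_X ℂ j).pow (m - (l : ℕ)))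
      have h2 : D * D₁ + 1 * (l : ℕ) + 1 * (m - (l : ℕ)) = D * D₁ + m := by
        have := l.2
        omega
      rw [h2] at h1
      exact h1
    have hgen := (gen_eq_zero_iff hcj hFhom).2 hrel
    have hterm : ∀ l, gen Q' j (aeval γ (α l)) = gen Q' j (γ i₀) ^ D₁ * e (gen (imI γ Q') i₀ (α l)) := by
      intro l
      unfold gen at hc hcomp ⊢
      rw [Pool.Agent.H7.Bir.aeval_comp, Pool.Agent.H7.Bir.aeval_div (hα l) hc]
      congr 1
      have h6 : (fun i => aeval (fun i => ratio Q' i j) (γ i) / aeval (fun i => ratio Q' i j) (γ i₀)) = fun i => e (ratio (imI γ Q') i i₀) := by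
        funext i
        rw [div_eq_iff hc, hcomp]
      rw [h6]
      exact (MvPolynomial.comp_aeval_apply (φ := e) (f := fun i => ratio (imI γ Q') i i₀) (α l)).symm
    have hsum : ∑ l : Fin (m + 1), e (gen (imI γ Q') i₀ (α l)) * ratio Q' i j ^ (l : ℕ) = 0 := by
      have h6 : gen Q' j Fi = gen Q' j (γ i₀) ^ D₁ * ∑ l : Fin (m + 1), e (gen (imI γ Q') i₀ (α l)) * ratio Q' i j ^ (l : ℕ) := by
        have h8 : gen Q' j (γ i₀) ^ D₁ * ∑ l : Fin (m + 1), e (gen (imI γ Q') i₀ (α l)) * ratio Q' i j ^ (l : ℕ) =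
            ∑ l : Fin (m + 1), gen Q' j (γ i₀) ^ D₁ * (e (gen (imI γ Q') i₀ (α l)) * ratio Q' i j ^ (l : ℕ)) :=
          Finset.mul_sum _ _ _
        refine Eq.trans ?_ h8.symm
        rw [hFi]
        unfold gen at hterm ⊢
        rw [map_sum]
        refine Finset.sum_congr rfl fun l _ => ?_
        rw [map_mul, map_mul, map_pow, map_pow, aeval_X, aeval_X, ratio_self hcj, one_pow, mul_one, hterm, mul_assoc]
      rw [h6] at hgen
      exact (mul_eq_zero.1 hgen).resolve_left (pow_ne_zero _ hc)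
    refine ⟨∑ l : Fin (m + 1), Polynomial.C (gen (imI γ Q') i₀ (α l)) * Polynomial.X ^ (l : ℕ), fun h0 => ?_, ?_⟩
    · have h7 := congrArg (fun q : Polynomial (FunField (imI γ Q')) => q.coeff m) h0
      simp only [Polynomial.finsetSum_coeff, Polynomial.coeff_C_mul_X_pow, Polynomial.coeff_zero] at h7
      rw [Finset.sum_eq_single (Fin.last m)] at h7
      · rw [if_pos (by simp)] at h7
        exact hαP ((gen_eq_zero_iff hci (hα _)).1 h7)
      · intro l _ hl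
        rw [if_neg]
        intro h8
        exact hl (Fin.ext (by rw [Fin.val_last]; exact h8.symm))
      · intro h8
        exact absurd (Finset.mem_univ _) h8
    · rw [map_sum]
      refine Eq.trans (Finset.sum_congr rfl fun l _ => ?_) hsum
      rw [map_mul, map_pow, Polynomial.aeval_C, Polynomial.aeval_X]
      rfl
  have _ : Algebra.IsAlgebraic (FunField (imI γ Q')) (FunField Q') := by
    have h1 : IntermediateField.adjoin ℂ (Set.range fun i => ratio Q' i j) ≤ (algebraicClosure (FunField (imI γ Q')) (FunField Q')).restrictScalars ℂ := by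
      rw [IntermediateField.adjoin_le_iff]
      rintro _ ⟨i, rfl⟩
      exact mem_algebraicClosure_iff.2 (halg' i)
    rw [adjoin_ratio hcj] at h1
    exact ⟨fun x => mem_algebraicClosure_iff.1 (h1 IntermediateField.mem_top)⟩
  have hz : ∃ z : Fin w → FunField (imI γ Q'), IsTranscendenceBasis ℂ z := by
    obtain ⟨z', hz'⟩ := hz'
    have h1 := trdeg_add_eq ℂ (FunField (imI γ Q')) (A := FunField Q')
    rw [trdeg_eq_zero_iff.2 (inferInstance : Algebra.IsAlgebraic (FunField (imI γ Q')) (FunField Q')), add_zero, ← hz'.cardinalMk_eq_trdeg] at h1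
    obtain ⟨ι, z, hz⟩ := exists_isTranscendenceBasis' ℂ (FunField (imI γ Q'))
    rw [← hz.cardinalMk_eq_trdeg] at h1
    obtain ⟨φ⟩ := Cardinal.eq.1 h1
    exact ⟨z ∘ φ.symm, hz.comp_equiv φ.symm⟩
  exact isLGT_of_algebraic hz (fun _ _ _ _ h => h) (hgt hz)

theorem aeval_mul {n : ℕ} {R : MvPolynomial (Fin (N + 1)) ℂ} (hR : R.IsHomogeneous n) (a : MvPolynomial (Fin (M + 1)) ℂ)
    (γ : Fin (N + 1) → MvPolynomial (Fin (M + 1)) ℂ) : aeval (fun i => a * γ i) R = a ^ n * aeval γ R := by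
  rw [aeval_def, aeval_def, eval₂_eq', eval₂_eq', Finset.mul_sum]
  refine Finset.sum_congr rfl fun d hd => ?_
  have h1 : ∑ i, d i = n := by
    have h2 := hR (mem_support_iff.1 hd)
    rw [Finsupp.weight_apply, Finsupp.sum_fintype _ _ (by simp)] at h2
    simpa using h2
  simp only [mul_pow, Finset.prod_mul_distrib, Finset.prod_pow_eq_pow_sum, h1]
  ring

/-- the embedding of function fields, by forms of positive degree -/
theorem exists_rat' {P : Ideal (MvPolynomial (Fin (N + 1)) ℂ)} [P.IsPrime] {P' : Ideal (MvPolynomial (Fin (M + 1)) ℂ)}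
    [hPp' : P'.IsPrime] (e : FunField P →ₐ[ℂ] FunField P') {j : Fin (N + 1)} (hj : coordFun P j ≠ 0) {j' : Fin (M + 1)}
    (hj' : coordFun P' j' ≠ 0) :
    ∃ (D : ℕ) (γ : Fin (N + 1) → MvPolynomial (Fin (M + 1)) ℂ), 0 < D ∧ (∀ i, (γ i).IsHomogeneous D) ∧
      (∀ n R, R.IsHomogeneous n → (aeval γ R ∈ P' ↔ R ∈ P)) ∧ γ j ∉ P' := by
  obtain ⟨D, γ, hγ, hmaps, hγj⟩ := Pool.Agent.H23.GU.exists_rat e hj hj'
  have hX : (X j' : MvPolynomial (Fin (M + 1)) ℂ) ∉ P' := coordFun_ne_zero_iff.1 hj'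
  refine ⟨1 + D, fun i => X j' * γ i, by omega, fun i => (isHomogeneous_X ℂ j').mul (hγ i), ?_, ?_⟩
  · intro n R hR
    rw [← hmaps n R hR]
    have h1 : aeval (fun i => X j' * γ i) R = (X j') ^ n * aeval γ R := aeval_mul hR _ _
    rw [h1]
    constructor
    · intro h
      rcases hPp'.mem_or_mem h with h | h
      · exact absurd (hPp'.mem_of_pow_mem _ h) hX
      · exact h
    · exact fun h => Ideal.mul_mem_left _ _ h
  · intro h
    rcases hPp'.mem_or_mem h with h | h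
    · exact hX h
    · exact hγj h

/-- a form vanishing on a proper closed subset -/
theorem exists_form {P : Ideal (MvPolynomial (Fin (N + 1)) ℂ)} {Ξ : Set (PN N)} (hc : ZariskiClosedIn (projVar P) Ξ) (hp : Ξ ≠ projVar P) :
    ∃ (R : MvPolynomial (Fin (N + 1)) ℂ) (n : ℕ), R.IsHomogeneous n ∧ R ∉ P ∧ ∀ x ∈ Ξ, VanishesAt R x := by
  obtain ⟨S, hS, hΞS⟩ := hc
  obtain ⟨x₁, hx₁, R, hRS, hRx₁⟩ : ∃ x ∈ projVar P, ∃ R ∈ S, ¬ VanishesAt R x := by
    by_contra hcon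
    push Not at hcon
    apply hp
    rw [hΞS]
    ext y
    exact ⟨fun hy => hy.1, fun hy => ⟨hy, fun R hR => hcon y hy R hR⟩⟩
  obtain ⟨nR, hnR⟩ := hS R hRS
  refine ⟨R, nR, hnR, fun h1 => hRx₁ (hx₁ R h1 nR hnR), fun x hx => ?_⟩
  rw [hΞS] at hx
  exact hx.2 R hRS

/-- the zero set of a form -/
theorem closed_form {P : Ideal (MvPolynomial (Fin (N + 1)) ℂ)} {T : MvPolynomial (Fin (N + 1)) ℂ} {e : ℕ} (hT : T.IsHomogeneous e) :
    ZariskiClosedIn (projVar P) {x | x ∈ projVar P ∧ VanishesAt T x} := by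
  refine ⟨{T}, fun R hR => ?_, ?_⟩
  · rw [Set.mem_singleton_iff.1 hR]
    exact ⟨_, hT⟩
  · ext x
    constructor
    · rintro ⟨h1, h2⟩
      refine ⟨h1, fun R hR => ?_⟩
      rw [Set.mem_singleton_iff.1 hR]
      exact h2
    · rintro ⟨h1, h2⟩
      exact ⟨h1, h2 T rfl⟩

theorem proper_form {P : Ideal (MvPolynomial (Fin (N + 1)) ℂ)} [P.IsPrime] (hP : Homog P) (hX : ∃ i, (X i : MvPolynomial (Fin (N + 1)) ℂ) ∉ P)
    {T : MvPolynomial (Fin (N + 1)) ℂ} {e : ℕ} (hT : T.IsHomogeneous e) (hTP : T ∉ P) : {x | x ∈ projVar P ∧ VanishesAt T x} ≠ projVar P := by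
  intro heq
  obtain ⟨y, hy, hyT⟩ := Pool.Agent.H17EF.exists_point hP hX hTP hT
  rw [← heq] at hy
  exact hyT hy.2

/-- a closed subvariety which is not contained in the zero set -/
theorem not_mem_of_not_subset {P Q : Ideal (MvPolynomial (Fin (N + 1)) ℂ)} (hPQ : P ≤ Q) {T : MvPolynomial (Fin (N + 1)) ℂ} {e : ℕ} (hT : T.IsHomogeneous e)
    (h : ¬ projVar Q ⊆ {x | x ∈ projVar P ∧ VanishesAt T x}) : T ∉ Q := by
  intro hTQ
  exact h fun x hx => ⟨fun R hR n hn => hx R (hPQ hR) n hn, hx T hTQ e hT⟩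

/-- **The four properties and dominant rational maps of the same dimension.** -/
theorem ggl_up {P : Ideal (MvPolynomial (Fin (N + 1)) ℂ)} [P.IsPrime] {P' : Ideal (MvPolynomial (Fin (M + 1)) ℂ)} [hPp' : P'.IsPrime]
    (hP : Homog P) (hP' : Homog P') {k : ℕ} {z : Fin (k + 1) → FunField P} (hz : IsTranscendenceBasis ℂ z) {z' : Fin (k + 1) → FunField P'}
    (hz' : IsTranscendenceBasis ℂ z') (e : FunField P →ₐ[ℂ] FunField P') {Ξ : Set (PN N)} (hΞ : GGL P Ξ) :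
    ∃ (T : MvPolynomial (Fin (M + 1)) ℂ) (n : ℕ), T.IsHomogeneous n ∧ T ∉ P' ∧ GGL P' {x | x ∈ projVar P' ∧ VanishesAt T x} := by
  have hΞc : GGLC P Ξ := ⟨hΞ.closed, hΞ.proper, hΞ.generalType, hΞ.picard, hΞ.brody, fun Q _ hQ hPQ hsub hz => hΞ.strongly Q hQ hPQ hsub 1 le_rfl hz⟩
  obtain ⟨Ξ₁, hΞ₁⟩ := Pool.Agent.H23.GU.gglc_up hP' hz hz' e hΞc
  obtain ⟨T₁, n₁, hT₁, hT₁P, hT₁Ξ⟩ := exists_form hΞ₁.closed hΞ₁.proper
  obtain ⟨i₀, hi₀⟩ := Pool.Agent.H92.GT.Proj.exists_coordFun_ne_zero P z hz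
  obtain ⟨j, hj⟩ := Pool.Agent.H92.GT.Proj.exists_coordFun_ne_zero P' z' hz'
  obtain ⟨D, γ, hD, hγ, hmaps, hγ₀⟩ := exists_rat' e hi₀ hj
  have hjP : X j ∉ P' := coordFun_ne_zero_iff.1 hj
  obtain ⟨R, nR, hnR, hRP, hRv⟩ := exists_form hΞ.closed hΞ.proper
  choose m D₁ α hα hαP hrel using exists_eq_aux hz hz' hγ hmaps (coordFun_ne_zero_iff.1 hi₀) hjP
  set B : MvPolynomial (Fin (N + 1)) ℂ := R * ∏ i, α i (Fin.last (m i)) with hB
  have hBhom : B.IsHomogeneous (nR + ∑ i, D₁ i) := hnR.mul (IsHomogeneous.prod _ _ _ fun i _ => hα i _)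
  have hBP : B ∉ P := by
    intro h1
    rcases Ideal.IsPrime.mem_or_mem inferInstance h1 with h2 | h2
    · exact hRP h2
    · obtain ⟨i, -, h3⟩ := (Ideal.IsPrime.prod_mem_iff (p := P)).1 h2
      exact hαP i h3
  set T₂ : MvPolynomial (Fin (M + 1)) ℂ := aeval γ B * γ i₀ * X j with hT₂
  have hT₂hom : T₂.IsHomogeneous (D * (nR + ∑ i, D₁ i) + D + 1) := ((hBhom.aeval γ hγ).mul (hγ i₀)).mul (isHomogeneous_X ℂ j)
  have hT₂P : T₂ ∉ P' := by
    intro h1
    rcases Ideal.IsPrime.mem_or_mem inferInstance h1 with h2 | h2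
    · rcases Ideal.IsPrime.mem_or_mem inferInstance h2 with h3 | h3
      · exact hBP ((hmaps _ B hBhom).1 h3)
      · exact hγ₀ h3
    · exact hjP h2
  have hT : (T₁ * T₂).IsHomogeneous (n₁ + (D * (nR + ∑ i, D₁ i) + D + 1)) := hT₁.mul hT₂hom
  have hTP : T₁ * T₂ ∉ P' := by
    intro h
    rcases hPp'.mem_or_mem h with h | h
    · exact hT₁P h
    · exact hT₂P h
  have hv1 : ∀ x ∈ Ξ₁, VanishesAt (T₁ * T₂) x := by
    intro x hx
    unfold VanishesAt
    rw [map_mul, show eval x.rep T₁ = 0 from hT₁Ξ x hx, zero_mul]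
  refine ⟨T₁ * T₂, _, hT, hTP, closed_form hT, proper_form hP' ⟨j, hjP⟩ hT hTP, hΞ₁.generalType, ?_, ?_, ?_⟩
  · intro f hf hfX hne
    refine hΞ₁.picard f hf hfX ?_
    obtain ⟨z, hz, hzT⟩ := hne
    exact ⟨z, hz, fun h1 => hzT ⟨hfX z hz, hv1 _ h1⟩⟩
  · intro f hf hfX hne z
    exact ⟨hfX z, hv1 _ (hΞ₁.brody f hf hfX hne z)⟩
  · intro Q' _ hQ' hPQ' hsub w hw hzw
    have hTQ : T₁ * T₂ ∉ Q' := not_mem_of_not_subset hPQ' hT hsub
    have hT₂Q : T₂ ∉ Q' := fun h => hTQ (Ideal.mul_mem_left _ _ h)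
    have h1 : aeval γ B ∉ Q' := fun h => hT₂Q (by
      rw [hT₂, mul_assoc]
      exact Ideal.mul_mem_right _ _ h)
    have h2 : γ i₀ ∉ Q' := fun h => hT₂Q (Ideal.mul_mem_right _ _ (Ideal.mul_mem_left _ _ h))
    have h3 : (X j : MvPolynomial (Fin (M + 1)) ℂ) ∉ Q' := fun h => hT₂Q (Ideal.mul_mem_left _ _ h)
    have hBQ : B ∉ imI γ Q' := h1
    have hRQ : R ∉ imI γ Q' := fun h => hBQ (Ideal.mul_mem_right _ _ h)
    have hαQ : ∀ i, α i (Fin.last (m i)) ∉ imI γ Q' := by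
      intro i h
      apply hBQ
      refine Ideal.mul_mem_left _ _ ?_
      exact Ideal.mem_of_dvd _ (Finset.dvd_prod_of_mem (fun i => α i (Fin.last (m i))) (Finset.mem_univ i)) h
    have hQhom : Homog (imI γ Q') := imI_homog hD hγ hQ'
    have hPQ : P ≤ imI γ Q' := by
      intro F hF
      rw [mem_imI, ← sum_homogeneousComponent F, map_sum]
      refine Ideal.sum_mem _ fun n _ => hPQ' ?_
      exact (hmaps n _ (homogeneousComponent_isHomogeneous n F)).2 (hP F hF n)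
    have hXi : (X i₀ : MvPolynomial (Fin (N + 1)) ℂ) ∉ imI γ Q' := by
      rw [mem_imI, aeval_X]
      exact h2
    refine gt_of_image hγ hQ' h2 h3 (fun i => ⟨m i, D₁ i, α i, hα i, hαQ i, hPQ' (hrel i)⟩) hzw fun hzQ => ?_
    refine hΞ.strongly (imI γ Q') hQhom hPQ (fun hsub => ?_) w hw hzQ
    obtain ⟨x, hx, hxR⟩ := Pool.Agent.H17EF.exists_point hQhom ⟨i₀, hXi⟩ hRQ hnR
    exact hxR (hRv x (hsub hx))

/-- **Quasi-projective varieties with a dominant rational map to `X`.** -/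
theorem open_up {P : Ideal (MvPolynomial (Fin (N + 1)) ℂ)} [P.IsPrime] {P' : Ideal (MvPolynomial (Fin (M + 1)) ℂ)} [P'.IsPrime]
    (hP : Homog P) (hP' : Homog P') {k : ℕ} (hz : ∃ z : Fin (k + 1) → FunField P, IsTranscendenceBasis ℂ z) (hz' : ∃ z' : Fin (k + 1) → FunField P', IsTranscendenceBasis ℂ z')
    (e : FunField P →ₐ[ℂ] FunField P') {Ξ : Set (PN N)} (hΞ : GGL P Ξ) {s : ℕ} {G : Fin s → MvPolynomial (Fin (M + 1)) ℂ}
    (hG : ∀ m, ∃ n, (G m).IsHomogeneous n) (hne : (locVar P' G).Nonempty) : ∃ Ξ' : Set (PN M), GGLOpen P' G Ξ' := by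
  obtain ⟨z, hz⟩ := hz
  obtain ⟨z', hz'⟩ := hz'
  obtain ⟨T, n, -, -, h⟩ := ggl_up hP hP' hz hz' e hΞ
  exact ⟨_, open_four hP' hG hne h⟩

end Pool.Agent.GT
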