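import Pool.Agent.GT.Defs
import Pool.Agent.GT.Up

/-!
# GT Bir: Zariski dense entire curves and birational maps

Let the nonconstant entire curves in `X` be Zariski dense.  Then no variety `X'` which is birational to `X` has the property (iii); if moreover no nonconstant
entire curve in `X` extends to `∞` (there are no rational curves), then `X'` does not have the property (ii).
-/

set_option autoImplicit false

open Topology Filter MvPolynomial

noncomputable section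

namespace Pool.Agent.GT

open Pool.Agent.H17 (PN VanishesAt HolomorphicInto puncturedDisc vanishesAt_mk_iff ZariskiClosedIn)
open Pool.Agent.H17GT (coordFun)
open Pool.Agent.H17LG.Variety (FunField IsLogGeneralType)
open Pool.Agent.H62.FC (Homog)
open Pool.Agent.H17EF (projVar)
open Pool.Agent.H7.Bir

variable {N M : ℕ}

/-- the nonconstant entire curves are Zariski dense -/
def DenseEntire (P : Ideal (MvPolynomial (Fin (N + 1)) ℂ)) : Prop :=
  ∀ (R : MvPolynomial (Fin (N + 1)) ℂ) (e : ℕ), R.IsHomogeneous e → R ∉ P →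
    ∃ f : ℂ → PN N, HolomorphicInto f Set.univ ∧ (∀ z, f z ∈ projVar P) ∧ (∃ z w, f z ≠ f w) ∧ ¬ VanishesAt R (f 0)

theorem const_hol {U : Set ℂ} (x : PN N) : HolomorphicInto (fun _ : ℂ => x) U := by
  intro z _
  exact ⟨fun _ => x.rep, analyticAt_const, Eventually.of_forall fun _ => ⟨x.rep_nonzero, x.mk_rep.symm⟩⟩

/-- the data of a birational map and of a form on `X'` -/
theorem exists_data {P : Ideal (MvPolynomial (Fin (N + 1)) ℂ)} [hPp : P.IsPrime] {P' : Ideal (MvPolynomial (Fin (M + 1)) ℂ)} [P'.IsPrime]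
    (hdim : ∃ (w : ℕ) (z : Fin (w + 1) → FunField P), IsTranscendenceBasis ℂ z) (e : FunField P' ≃ₐ[ℂ] FunField P) :
    ∃ (D D' : ℕ) (α : Fin (N + 1) → MvPolynomial (Fin (M + 1)) ℂ) (γ : Fin (M + 1) → MvPolynomial (Fin (N + 1)) ℂ) (i' : Fin (M + 1)) (i : Fin (N + 1)),
      IsBir P' P D D' α γ i' i ∧ badForm α γ i' i ∉ P := by
  obtain ⟨w, z, hz⟩ := hdim
  obtain ⟨i, hi⟩ := Pool.Agent.H92.GT.Proj.exists_coordFun_ne_zero P z hz
  obtain ⟨i', hi'⟩ := Pool.Agent.H92.GT.Proj.exists_coordFun_ne_zero P' (e.symm ∘ z) (e.symm.isTranscendenceBasis hz)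
  obtain ⟨D, D', α, γ, h⟩ := exists_isBir e.symm hi' hi
  refine ⟨D, D', α, γ, i', i, h, fun hcon => ?_⟩
  rcases hPp.mem_or_mem hcon with h1 | h1
  · exact h.hj' h1
  · rcases hPp.mem_or_mem h1 with h2 | h2
    · exact h.hγ h2
    · exact h.hα h2

theorem not_brody {P : Ideal (MvPolynomial (Fin (N + 1)) ℂ)} [hPp : P.IsPrime] {P' : Ideal (MvPolynomial (Fin (M + 1)) ℂ)} [P'.IsPrime]
    (hdim : ∃ (w : ℕ) (z : Fin (w + 1) → FunField P), IsTranscendenceBasis ℂ z) (e : FunField P' ≃ₐ[ℂ] FunField P) (hd : DenseEntire P) :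
    ¬ PseudoBrody P' := by
  rintro ⟨Ξ, hΞc, hΞp, hΞ⟩
  obtain ⟨D, D', α, γ, i', i, h, hb⟩ := exists_data hdim e
  obtain ⟨T, n, hT, hTP, hTΞ⟩ := exists_form hΞc hΞp
  have hq : (badForm α γ i' i * aeval γ T).IsHomogeneous _ := h.bad_homog.mul (hT.aeval γ h.homγ)
  have hqP : badForm α γ i' i * aeval γ T ∉ P := by
    intro hcon
    rcases hPp.mem_or_mem hcon with h1 | h1
    · exact hb h1
    · exact hTP ((h.maps n T hT).1 h1)
  obtain ⟨f, hf, hfX, hne, hf0⟩ := hd _ _ hq hqP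
  unfold VanishesAt at hf0
  rw [map_mul, mul_eq_zero, not_or] at hf0
  obtain ⟨g, hg, hgX, hg0, hgn⟩ := h.lift isOpen_univ isPreconnected_univ hf (fun z _ => hfX z) (Set.mem_univ 0) hf0.1
  by_cases hconst : ∃ z w, g z ≠ g w
  · have h1 := hTΞ _ (hΞ g hg (fun z => hgX z (Set.mem_univ z)) hconst 0)
    obtain ⟨hv, -, -⟩ := h.comp_eq (hfX 0) hf0.1
    rw [hg0, vanishesAt_rmap hv hT] at h1
    exact hf0.2 h1
  · push Not at hconst
    have h3 : ∀ᶠ z in 𝓝 0, f z = (fun _ => f 0) z := by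
      filter_upwards [hgn] with z h4
      rw [← h4.2, hconst z 0, hgn.self_of_nhds.2]
    have h4 := pn_identity isPreconnected_univ hf (const_hol _) (Set.mem_univ 0) h3
    obtain ⟨z, w, hzw⟩ := hne
    exact hzw ((h4 z (Set.mem_univ z)).trans (h4 w (Set.mem_univ w)).symm)

theorem not_picard {P : Ideal (MvPolynomial (Fin (N + 1)) ℂ)} [hPp : P.IsPrime] {P' : Ideal (MvPolynomial (Fin (M + 1)) ℂ)} [P'.IsPrime]
    (hdim : ∃ (w : ℕ) (z : Fin (w + 1) → FunField P), IsTranscendenceBasis ℂ z) (e : FunField P' ≃ₐ[ℂ] FunField P) (hd : DenseEntire P)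
    (hno : ∀ f : ℂ → PN N, HolomorphicInto f Set.univ → (∀ z, f z ∈ projVar P) → (∃ z w, f z ≠ f w) → ∀ G : ℂ → PN N, HolomorphicInto G (Metric.ball 0 1) →
      ¬ ∀ z ∈ puncturedDisc, G z = f z⁻¹) :
    ¬ PseudoPicard P' := by
  rintro ⟨Ξ, hΞc, hΞp, hΞ⟩
  obtain ⟨D, D', α, γ, i', i, h, hb⟩ := exists_data hdim e
  obtain ⟨T, n, hT, hTP, hTΞ⟩ := exists_form hΞc hΞp
  have hq : (badForm α γ i' i * aeval γ T).IsHomogeneous _ := h.bad_homog.mul (hT.aeval γ h.homγ)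
  have hqP : badForm α γ i' i * aeval γ T ∉ P := by
    intro hcon
    rcases hPp.mem_or_mem hcon with h1 | h1
    · exact hb h1
    · exact hTP ((h.maps n T hT).1 h1)
  obtain ⟨f, hf, hfX, hne, hf0⟩ := hd _ _ hq hqP
  unfold VanishesAt at hf0
  rw [map_mul, mul_eq_zero, not_or] at hf0
  -- the translated curve, and the curve on the punctured disc
  obtain ⟨f₂, hf₂⟩ : ∃ f₂ : ℂ → PN N, f₂ = fun w => f (w - 2) := ⟨_, rfl⟩
  obtain ⟨f₁, hf₁⟩ : ∃ f₁ : ℂ → PN N, f₁ = fun z => f (z⁻¹ - 2) := ⟨_, rfl⟩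
  have hf₂h : HolomorphicInto f₂ Set.univ := by
    intro z _
    obtain ⟨φ, hφ, he⟩ := hf (z - 2) (Set.mem_univ _)
    have hs : AnalyticAt ℂ (fun w : ℂ => w - 2) z := analyticAt_id.sub analyticAt_const
    refine ⟨fun w => φ (w - 2), AnalyticAt.comp (g := φ) (f := fun w : ℂ => w - 2) hφ hs, ?_⟩
    rw [hf₂]
    exact (hs.continuousAt.tendsto.eventually he)
  have hf₁h : HolomorphicInto f₁ puncturedDisc := by
    intro z hz
    have hz0 : z ≠ 0 := hz.2
    obtain ⟨φ, hφ, he⟩ := hf (z⁻¹ - 2) (Set.mem_univ _)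
    have hs : AnalyticAt ℂ (fun w : ℂ => w⁻¹ - 2) z := (analyticAt_inv hz0).sub analyticAt_const
    refine ⟨fun w => φ (w⁻¹ - 2), AnalyticAt.comp (g := φ) (f := fun w : ℂ => w⁻¹ - 2) hφ hs, ?_⟩
    rw [hf₁]
    exact (hs.continuousAt.tendsto.eventually he)
  have hz₀ : (1 / 2 : ℂ) ∈ puncturedDisc := by
    refine ⟨?_, ?_⟩
    · rw [mem_ball_zero_iff]
      norm_num
    · rw [Set.mem_singleton_iff]
      norm_num
  have hf₁0 : f₁ (1 / 2) = f 0 := by
    rw [hf₁]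
    norm_num
  obtain ⟨g, hg, hgX, hg0, hgn⟩ := h.lift punctured_open Pool.Agent.H36.BP.preconnected_puncturedDisc hf₁h
    (fun z _ => by rw [hf₁]; exact hfX _) hz₀ (by rw [hf₁0]; exact hf0.1)
  obtain ⟨G, hG, hGg⟩ := hΞ g hg hgX ⟨1 / 2, hz₀, fun h1 => by
    have h2 := hTΞ _ h1
    obtain ⟨hv, -, -⟩ := h.comp_eq (hfX 0) hf0.1
    rw [hg0, hf₁0, vanishesAt_rmap hv hT] at h2
    exact hf0.2 h2⟩
  have hz₀' : (1 / 2 : ℂ) ∈ Metric.ball (0 : ℂ) 1 := hz₀.1
  obtain ⟨k, hk⟩ : ∃ k, ¬ VanishesAt (α k) (G (1 / 2)) := by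
    by_contra hcon
    push Not at hcon
    rw [hGg _ hz₀] at hcon
    exact hgn.self_of_nhds.1 (funext hcon)
  obtain ⟨F, hF, hF1, -⟩ := exists_comp h.homα Metric.isOpen_ball (convex_ball (0 : ℂ) 1).isPreconnected hG hz₀' hk
  refine hno f₂ hf₂h (fun z => by rw [hf₂]; exact hfX _) ?_ F hF ?_
  · obtain ⟨z, w, hzw⟩ := hne
    refine ⟨z + 2, w + 2, ?_⟩
    rw [hf₂]
    simpa using hzw
  · have h1 : ∀ z ∈ puncturedDisc, F z = f₁ z := by
      refine pn_identity Pool.Agent.H36.BP.preconnected_puncturedDisc (fun z hz => hF z hz.1) hf₁h hz₀ ?_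
      filter_upwards [hgn, punctured_open.mem_nhds hz₀] with z h3 h4
      rw [hF1 z h4.1 (by rw [hGg z h4]; exact h3.1), hGg z h4, h3.2]
    intro z hz
    rw [h1 z hz, hf₁, hf₂]

end Pool.Agent.GT
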