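import Pool.Agent.GA.HPl
import Pool.Agent.GG.Cst

/-!
# GT NoExt: an entire curve in a variety with polar symmetric differentials does not extend to `∞`

The proof is that of `GA.entire_of_punctured` (file `GA/Ent` of helper66).
-/

set_option autoImplicit false

open MvPolynomial Topology Filter Metric
open Pool.Agent.H13.SM (conTan cone)
open Pool.Agent.H17 (PN VanishesAt HolomorphicInto puncturedDisc)
open Pool.Agent.H17EF (projVar)
open Pool.Agent.H62.FC (Homog)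
open Pool.Agent.H36.BP (EN fs wd)
open Pool.Agent.GG

namespace Pool.Agent.GT

variable {N : ℕ} {P : Ideal (MvPolynomial (Fin (N + 1)) ℂ)} {J : ℕ} {m : Fin J → ℕ} {θ : ∀ k, SymSec P (m k)}

/-- the values of a symmetric differential in the coordinates `z` and `u = 1 / z` -/
private theorem ent_val (hP : Homog P) {n : ℕ} (t : SymSec P n) {F φ : ℂ → Fin (N + 1) → ℂ} (hF : Differentiable ℂ F) (hFX : ∀ z, F z ∈ cone P)
    {u : ℂ} (hu : u ≠ 0) (hφ : DifferentiableAt ℂ φ u) (hφ0 : φ u ≠ 0)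
    (hr : ∀ᶠ v in 𝓝 u, ∀ i j, φ v i * F v⁻¹ j - φ v j * F v⁻¹ i = 0) :
    t.toFun (φ u) (deriv φ u) = (-(u ^ 2)⁻¹) ^ n * t.toFun (F u⁻¹) (deriv F u⁻¹) := by
  obtain ⟨x, hx⟩ : ∃ x, x = F u⁻¹ := ⟨_, rfl⟩
  obtain ⟨v, hv⟩ : ∃ v, v = deriv F u⁻¹ := ⟨_, rfl⟩
  have hxP : x ∈ cone P := hx ▸ hFX _
  have hvP : v ∈ conTan P x := by
    rw [hv, hx]
    exact cst_deriv_mem (hF _) (Eventually.of_forall hFX)
  -- a coordinate
  obtain ⟨j, hj⟩ : ∃ j, x j ≠ 0 := by
    by_contra hcon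
    push Not at hcon
    exact hxP.1 (funext hcon)
  -- the lift near `u`
  have hFi : HasDerivAt (fun v : ℂ => F v⁻¹) ((-(u ^ 2)⁻¹) • v) u := by
    rw [hv]
    exact (hF u⁻¹).hasDerivAt.scomp u (hasDerivAt_inv hu)
  have hFj : ∀ᶠ w in 𝓝 u, F w⁻¹ j ≠ 0 := by
    have h1 : ContinuousAt (fun w : ℂ => F w⁻¹ j) u := (hasDerivAt_pi.1 hFi j).continuousAt
    refine h1.eventually_ne ?_
    rw [← hx]
    exact hj
  obtain ⟨c, hc⟩ : ∃ c : ℂ → ℂ, c = fun w => φ w j / F w⁻¹ j := ⟨_, rfl⟩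
  have hcd : DifferentiableAt ℂ c u := by
    rw [hc]
    refine DifferentiableAt.div (differentiableAt_pi.1 hφ j) (hasDerivAt_pi.1 hFi j).differentiableAt ?_
    rw [← hx]
    exact hj
  have hφc : φ =ᶠ[𝓝 u] fun w => c w • F w⁻¹ := by
    filter_upwards [hr, hFj] with w h1 h2
    funext i
    rw [hc]
    simp only [Pi.smul_apply, smul_eq_mul]
    rw [div_mul_eq_mul_div, eq_div_iff h2]
    linear_combination h1 i j
  have hφu : φ u = c u • x := by
    rw [hx]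
    exact hφc.self_of_nhds
  have hcu : c u ≠ 0 := by
    intro h
    rw [h, zero_smul] at hφu
    exact hφ0 hφu
  have hdφ : deriv φ u = c u • ((-(u ^ 2)⁻¹) • v + ((c u)⁻¹ * deriv c u) • x) := by
    rw [hφc.deriv_eq]
    have h1 := (hcd.hasDerivAt.smul hFi).deriv
    have h2 : deriv (fun w => c w • F w⁻¹) u = c u • (-(u ^ 2)⁻¹) • v + deriv c u • F u⁻¹ := h1
    rw [h2, smul_add, smul_smul (c u) ((c u)⁻¹ * deriv c u) x, ← mul_assoc, mul_inv_cancel₀ hcu, one_mul, ← hx]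
  have hvP' : (-(u ^ 2)⁻¹) • v ∈ conTan P x := (conTan P x).smul_mem _ hvP
  have hw : (-(u ^ 2)⁻¹) • v + ((c u)⁻¹ * deriv c u) • x ∈ conTan P x :=
    (conTan P x).add_mem hvP' ((conTan P x).smul_mem _ (Pool.Agent.AD.G.self_mem_conTan hP hxP))
  rw [hφu, hdφ, t.scale x hxP _ hw _ hcu, t.add_smul x hxP _ hvP', t.smul x hxP _ hvP, ← hx, ← hv]

/-- a curve with `θ (f') = 0` is constant -/
private theorem ent_const (hθ : Polar θ) (hm : ∀ k, 1 ≤ m k) {f : ℂ → PN N} {F : ℂ → Fin (N + 1) → ℂ} (hF : Differentiable ℂ F)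
    (hFf : ∀ z, ∃ h : F z ≠ 0, f z = Projectivization.mk ℂ (F z) h) (hFX : ∀ z, F z ∈ cone P)
    (h : ∀ k z, (θ k).toFun (F z) (deriv F z) = 0) (z w : ℂ) : f z = f w := by
  have h0 : ∀ z, F z ≠ 0 := fun z => (hFX z).1
  have hl : Pool.Agent.H14.V.IsLift (fun z => (WithLp.toLp 2 (F z) : EN N)) f :=
    ⟨(Pool.Agent.H17EF.LE N).differentiable.comp hF, fun z => hFf z⟩
  have hd : ∀ z, deriv (fun z => (WithLp.toLp 2 (F z) : EN N)) z = WithLp.toLp 2 (deriv F z) := by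
    intro z
    exact ((Pool.Agent.H17EF.LE N : (Fin (N + 1) → ℂ) →L[ℂ] EN N).hasFDerivAt.comp_hasDerivAt z (hF z).hasDerivAt).deriv
  have hfs : ∀ z, fs (WithLp.toLp 2 (F z) : EN N) (deriv (fun z => (WithLp.toLp 2 (F z) : EN N)) z) = 0 := by
    intro z
    rw [hd]
    have h1 := no_common_zero hθ hm (hFX z) (cst_deriv_mem (hF z) (Eventually.of_forall hFX)) (fun k => h k z)
    obtain ⟨a, ha⟩ := Submodule.mem_span_singleton.1 h1
    unfold fs
    rw [(Pool.Agent.H36.BP.wd_eq_zero (fun h => h0 z (WithLp.toLp_injective 2 h))).2 ⟨a, by rw [← ha]; rfl⟩, zero_div]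
  apply Pool.Agent.H17EF.prP_injective
  rw [hl.prP, hl.prP]
  exact Pool.Agent.H14.V.pr_const hl.1 (fun z => hl.ne_zero z) hfs z w

/-- **Rational curves.**  A nonconstant entire curve `f` does not extend holomorphically to infinity. -/
theorem no_extend (hP : Homog P) (hθ : Polar θ) (hm : ∀ k, 1 ≤ m k) {f : ℂ → PN N} (hf : HolomorphicInto f Set.univ) (hX : ∀ z, f z ∈ projVar P)
    (hne : ∃ z w, f z ≠ f w) {G : ℂ → PN N} (hG : HolomorphicInto G (ball 0 1)) (hGf : ∀ z ∈ puncturedDisc, G z = f z⁻¹) : False := by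
  classical
  -- a global lift
  obtain ⟨x, hx⟩ := Pool.Agent.H17.exists_global_lift hf
  obtain ⟨F, hFx⟩ : ∃ F : ℂ → Fin (N + 1) → ℂ, F = fun z j => (x j : ℂ → ℂ) z := ⟨_, rfl⟩
  have hF : Differentiable ℂ F := by
    rw [hFx]
    exact differentiable_pi.2 fun j => (x j).diff
  have hFf : ∀ z, ∃ h : F z ≠ 0, f z = Projectivization.mk ℂ (F z) h := by
    intro z
    rw [hFx]
    exact hx z
  have hFX : ∀ z, F z ∈ cone P := by
    intro z
    obtain ⟨h, e⟩ := hFf z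
    have h1 := hX z
    rw [e] at h1
    exact (Pool.Agent.H17EF.mk_mem_projVar hP h).1 h1
  -- the curve on the punctured disc
  obtain ⟨g, hg⟩ : ∃ g : ℂ → PN N, g = fun z => f z⁻¹ := ⟨_, rfl⟩
  have hgh : HolomorphicInto g puncturedDisc := by
    intro z hz
    have hz0 : z ≠ 0 := hz.2
    refine ⟨fun w => F w⁻¹, ?_, Eventually.of_forall fun w => ?_⟩
    · exact (hF.analyticAt z⁻¹).fun_comp (analyticAt_inv hz0)
    · rw [hg]
      exact hFf w⁻¹
  have hGg : ∀ z ∈ puncturedDisc, G z = g z := by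
    intro z hz
    rw [hGf z hz, hg]
  obtain ⟨φ, hφ, hφG⟩ := hG 0 (mem_ball_self one_pos)
  have hφ0 : φ 0 ≠ 0 := hφG.self_of_nhds.1
  -- near `0`
  have hnear : ∀ᶠ u in 𝓝 (0 : ℂ), u ≠ 0 → ∀ i j, φ u i * F u⁻¹ j - φ u j * F u⁻¹ i = 0 := by
    filter_upwards [hφG, ball_mem_nhds (0 : ℂ) one_pos] with u h1 h2 h3
    obtain ⟨h4, h5⟩ := h1
    obtain ⟨h6, h7⟩ := hFf u⁻¹
    have h8 := hGg u ⟨h2, h3⟩
    rw [h5, hg] at h8
    have h9 : Projectivization.mk ℂ (φ u) h4 = Projectivization.mk ℂ (F u⁻¹) h6 := by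
      rw [h8, ← h7]
    rw [Projectivization.mk_eq_mk_iff'] at h9
    obtain ⟨a, ha⟩ := h9
    intro i j
    rw [← ha]
    simp only [Pi.smul_apply, smul_eq_mul]
    ring
  have hcone' : ∀ᶠ u in 𝓝 (0 : ℂ), u ≠ 0 → φ u ∈ cone P := by
    filter_upwards [hφG, ball_mem_nhds (0 : ℂ) one_pos] with u h1 h2 h3
    obtain ⟨h4, h5⟩ := h1
    have h8 := hGg u ⟨h2, h3⟩
    rw [h5, hg] at h8
    have h9 := hX u⁻¹
    rw [← (show _ = f u⁻¹ from h8)] at h9
    exact (Pool.Agent.H17EF.mk_mem_projVar hP h4).1 h9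
  have hcone : ∀ᶠ u in 𝓝 (0 : ℂ), φ u ∈ cone P := by
    filter_upwards [hcone'] with u h1
    rcases eq_or_ne u 0 with h2 | h2
    · rw [h2]
      refine ⟨hφ0, fun Q hQ => ?_⟩
      have h3 : Tendsto (fun u => eval (φ u) Q) (𝓝[≠] 0) (𝓝 (eval (φ 0) Q)) :=
        ((MvPolynomial.continuous_eval Q).continuousAt.comp hφ.continuousAt).tendsto.mono_left nhdsWithin_le_nhds
      have h4 : Tendsto (fun u => eval (φ u) Q) (𝓝[≠] 0) (𝓝 0) := by
        refine tendsto_const_nhds.congr' ?_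
        filter_upwards [nhdsWithin_le_nhds hcone', self_mem_nhdsWithin] with u h5 h6
        exact ((h5 h6).2 Q hQ).symm
      exact tendsto_nhds_unique h3 h4
    · exact h1 h2
  -- the symmetric differentials vanish along the curve
  have hzero : ∀ k z, (θ k).toFun (F z) (deriv F z) = 0 := by
    intro k
    have hent : Differentiable ℂ fun z => (θ k).toFun (F z) (deriv F z) := fun z =>
      ((θ k).analyticAt_curve (hF.analyticAt z) (Eventually.of_forall hFX)).differentiableAt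
    have hφa := ((θ k).analyticAt_curve hφ hcone).continuousAt
    have hlim : Tendsto (fun z => (θ k).toFun (F z) (deriv F z)) (cocompact ℂ) (𝓝 0) := by
      have h1 : Tendsto (fun u : ℂ => (-1) ^ (m k) * u ^ (2 * m k) * (θ k).toFun (φ u) (deriv φ u)) (𝓝 0) (𝓝 0) := by
        have h2 : ContinuousAt (fun u : ℂ => (-1) ^ (m k) * u ^ (2 * m k) * (θ k).toFun (φ u) (deriv φ u)) 0 :=
          (by fun_prop : ContinuousAt (fun u : ℂ => (-1) ^ (m k) * u ^ (2 * m k)) 0).mul hφa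
        have h3 := h2.tendsto
        have h4 : (2 * m k) ≠ 0 := by
          have := hm k
          omega
        rw [zero_pow h4, mul_zero, zero_mul] at h3
        exact h3
      have h2 : ∀ᶠ u in 𝓝[≠] (0 : ℂ), (-1) ^ (m k) * u ^ (2 * m k) * (θ k).toFun (φ u) (deriv φ u) = (θ k).toFun (F u⁻¹) (deriv F u⁻¹) := by
        filter_upwards [nhdsWithin_le_nhds hnear.eventually_nhds, nhdsWithin_le_nhds hφ.eventually_analyticAt, nhdsWithin_le_nhds hφG, self_mem_nhdsWithin] with u h3 h4 h5 h6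
        have hu : u ≠ 0 := h6
        have h7 : ∀ᶠ v in 𝓝 u, ∀ i j, φ v i * F v⁻¹ j - φ v j * F v⁻¹ i = 0 := by
          filter_upwards [h3, isOpen_ne.mem_nhds hu] with v h8 h9 using h8 h9
        rw [ent_val hP (θ k) hF hFX hu h4.differentiableAt h5.1 h7]
        have h10 : (-1) ^ (m k) * u ^ (2 * m k) * (-(u ^ 2)⁻¹) ^ (m k) = 1 := by
          rw [pow_mul, ← mul_pow, ← mul_pow]
          have h11 : -1 * u ^ 2 * -(u ^ 2)⁻¹ = 1 := by field_simp
          rw [h11, one_pow]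
        rw [← mul_assoc, h10, one_mul]
      have h3 : Tendsto (fun u : ℂ => (θ k).toFun (F u⁻¹) (deriv F u⁻¹)) (𝓝[≠] 0) (𝓝 0) :=
        (h1.mono_left nhdsWithin_le_nhds).congr' h2
      have h4 := h3.comp Filter.tendsto_inv₀_cobounded'
      rw [← Metric.cobounded_eq_cocompact]
      refine h4.congr fun z => ?_
      simp
    exact fun z => hent.apply_eq_of_tendsto_cocompact z hlim
  obtain ⟨z, w, hzw⟩ := hne
  exact hzw (ent_const hθ hm hF hFf hFX hzero z w)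

end Pool.Agent.GT
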