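import Pool.Agent.GB.Defs

/-!
# GT Res: the restriction of symmetric differentials to closed subvarieties

`Polar` and `Generated` are inherited: both speak about the vectors of the Zariski tangent spaces.
-/

set_option autoImplicit false

open MvPolynomial
open Pool.Agent.H13.SM (conTan cone)
open Pool.Agent.GG (SymSec Polar)
open Pool.Agent.GB (Generated)

noncomputable section

namespace Pool.Agent.GT

variable {N : ℕ} {P Q : Ideal (MvPolynomial (Fin (N + 1)) ℂ)}

theorem cone_mono (h : P ≤ Q) {x : Fin (N + 1) → ℂ} (hx : x ∈ cone Q) : x ∈ cone P := ⟨hx.1, fun R hR => hx.2 R (h hR)⟩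

theorem conTan_mono (h : P ≤ Q) {x v : Fin (N + 1) → ℂ} (hv : v ∈ conTan Q x) : v ∈ conTan P x := fun R hR => hv R (h hR)

/-- the restriction of a symmetric differential -/
def res {m : ℕ} (h : P ≤ Q) (t : SymSec P m) : SymSec Q m where
  toFun := t.toFun
  regular i := by
    obtain ⟨e, A, hA⟩ := t.regular i
    exact ⟨e, A, fun x hx v hv => hA x (cone_mono h hx) v (conTan_mono h hv)⟩
  add_smul x hx v hv a := t.add_smul x (cone_mono h hx) v (conTan_mono h hv) a
  smul x hx v hv a := t.smul x (cone_mono h hx) v (conTan_mono h hv) a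
  scale x hx v hv c hc := t.scale x (cone_mono h hx) v (conTan_mono h hv) c hc

theorem polar_res (h : P ≤ Q) {J : ℕ} {m : Fin J → ℕ} {θ : ∀ k, SymSec P (m k)} (hθ : Polar θ) : Polar fun k => res h (θ k) :=
  fun x hx v hv w hw hv' hw' => hθ x (cone_mono h hx) v (conTan_mono h hv) w (conTan_mono h hw) hv' hw'

theorem generated_res (h : P ≤ Q) {J m : ℕ} {θ : Fin J → SymSec P m} (hθ : Generated θ) : Generated fun k => res h (θ k) := by
  intro x hx G hG hinv
  obtain ⟨c, hc⟩ := hθ x (cone_mono h hx) G hG hinv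
  exact ⟨c, fun v hv => hc v (conTan_mono h hv)⟩

end Pool.Agent.GT
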