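import Pool.Agent.GA.Fin
import Pool.Agent.GB.Use
import Pool.Agent.GG.Kod
import Pool.Agent.GT.Bir
import Pool.Agent.GT.NoExt
import Pool.Agent.GT.Res

/-!
# GT Top: the Green–Griffiths–Lang conjecture for varieties whose symmetric differentials of some degree generate

`conclusion_of`: the equivalence of the four properties for the variety `X` of `P` (and all varieties birational to it), if the symmetric differentials `θ_k` of
degree `m ≥ 1` generate and, in the case that `X` is of general type, there is a form `R` which vanishes at all points with a vector satisfying the algebraic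
criterion.  `conclusion_smooth`: such a form exists if `X` is smooth.
-/

set_option autoImplicit false

open MvPolynomial Topology Filter Metric
open Pool.Agent.H13.SM (conTan cone)
open Pool.Agent.H17 (PN VanishesAt HolomorphicInto puncturedDisc ZariskiClosedIn)
open Pool.Agent.H17EF (projVar)
open Pool.Agent.H13.OT (OrderTwo)
open Pool.Agent.H17LG.Variety (FunField IsLogGeneralType)
open Pool.Agent.H62.FC (Homog)
open Pool.Agent.H62.SA (locVar)
open Pool.Agent.H7.Bir (GGL GGLOpen isGT_of_equiv)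
open Pool.Agent.GG (SymSec Frame IsTan Crit gfam pt Polar)
open Pool.Agent.GB (Generated polar_of_generated)

namespace Pool.Agent.GT

variable {N : ℕ} {P : Ideal (MvPolynomial (Fin (N + 1)) ℂ)} {J m : ℕ} {θ : Fin J → SymSec P m}

/-- the form `R` vanishes at all points with a nonzero vector which satisfies the criterion -/
def Special (θ : Fin J → SymSec P m) (R : MvPolynomial (Fin (N + 1)) ℂ) : Prop :=
  ∀ (f : Frame (m := fun _ => m) θ) (a : Fin (N + 1)) (I : Fin (N + 1) → (Unit ⊕ Unit) ⊕ (Fin f.q ⊕ Fin f.q) ⊕ Fin J) (c : Fin J → ℂ)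
    (x v : Fin (N + 1) → ℂ), IsTan (m := fun _ => m) θ a c x v → v ≠ 0 → Crit (gfam f a) I (pt x v) → eval x R = 0

/-- **The four properties of `X`**, with the exceptional set `{R = 0}`. -/
theorem ggl_of_special [P.IsPrime] (hP : Homog P) (hm : 1 ≤ m) (hθ : Generated θ) {n : ℕ} (hdim : ∃ z : Fin (n + 1) → FunField P, IsTranscendenceBasis ℂ z)
    (hgt : GeneralType P (n + 1)) {R : MvPolynomial (Fin (N + 1)) ℂ} {e : ℕ} (hR : R.IsHomogeneous e) (hRP : R ∉ P) (hRs : Special θ R) :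
    GGL P {x | x ∈ projVar P ∧ VanishesAt R x} := by
  have hpol := polar_of_generated hm hθ
  obtain ⟨z, hz⟩ := id hdim
  obtain ⟨i, hi⟩ := Pool.Agent.H92.GT.Proj.exists_coordFun_ne_zero P z hz
  have hX : ∃ i, (X i : MvPolynomial (Fin (N + 1)) ℂ) ∉ P := ⟨i, Pool.Agent.H17R.coordFun_ne_zero_iff.1 hi⟩
  refine ⟨closed_form hR, proper_form hP hX hR hRP, ?_, ?_, ?_, ?_⟩
  · intro w _ hw
    obtain ⟨z', hz'⟩ := hw
    obtain rfl := Pool.Agent.H22.TB.eq_of_basis hz hz'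
    exact hgt
  · intro f hf hfX hne
    refine Pool.Agent.GA.main_punct (m := fun _ => m) hP hpol (fun _ => hm) hR hRs hf hfX ?_
    obtain ⟨z, hz, h⟩ := hne
    exact ⟨z, hz, fun h1 => h ⟨hfX z hz, h1⟩⟩
  · intro f hf hfX hne z
    exact ⟨hfX z, Pool.Agent.GA.main_entire (m := fun _ => m) hP hpol (fun _ => hm) hR hRs hf hfX hne z⟩
  · intro Q _ hQ hPQ hsub w hw hzw
    have hRQ : R ∉ Q := not_mem_of_not_subset hPQ hR hsub
    by_contra hn
    obtain ⟨f⟩ := Pool.Agent.GG.exists_frame (m := fun _ => m) θ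
    obtain ⟨a, K, x, v, hx, hxa, hv, hva, hv0, hxR, hcr⟩ := Pool.Agent.GB.exists_crit hP hm hθ f hQ hPQ hw hzw hn hR hRQ
    exact hxR (hRs f a K (fun k => (θ k).toFun x v) x v ⟨cone_mono hPQ hx, hxa, conTan_mono hPQ hv, hva, fun _ => rfl⟩ hv0 hcr)

/-- **The conclusion**, if there is a special form in the case of general type. -/
theorem conclusion_of [P.IsPrime] (hP : Homog P) (hm : 1 ≤ m) (hθ : Generated θ) {n : ℕ} (hdim : ∃ z : Fin (n + 1) → FunField P, IsTranscendenceBasis ℂ z)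
    (hex : GeneralType P (n + 1) → ∃ (R : MvPolynomial (Fin (N + 1)) ℂ) (e : ℕ), R.IsHomogeneous e ∧ R ∉ P ∧ Special θ R) : Conclusion P (n + 1) := by
  have hpol := polar_of_generated hm hθ
  have hgg : GeneralType P (n + 1) → ∃ Ξ : Set (PN N), GGL P Ξ := by
    intro hgt
    obtain ⟨R, e, hR, hRP, hRs⟩ := hex hgt
    exact ⟨_, ggl_of_special hP hm hθ hdim hgt hR hRP hRs⟩
  have hdense : ¬ GeneralType P (n + 1) → ∀ (R : MvPolynomial (Fin (N + 1)) ℂ) (e : ℕ), R.IsHomogeneous e → R ∉ P →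
      ∃ f : ℂ → PN N, HolomorphicInto f Set.univ ∧ OrderTwo f ∧ (∀ z, f z ∈ projVar P) ∧ (∃ z w, f z ≠ f w) ∧ ¬ VanishesAt R (f 0) := by
    intro hn R e hR hRP
    obtain ⟨g, c, h1, h2, h3, h4, h5, -, -⟩ := Pool.Agent.GB.exists_entire_sub hP hm hθ hP le_rfl (Nat.succ_le_succ (Nat.zero_le n)) hdim hn hR hRP
    exact ⟨g, h1, h2, h3, h4, h5⟩
  refine ⟨?_, ?_, hdense⟩
  · intro M P' _ hP' he
    obtain ⟨e⟩ := he
    have hdim' : ∃ (w : ℕ) (z : Fin (w + 1) → FunField P), IsTranscendenceBasis ℂ z := ⟨n, hdim⟩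
    have h1 : GeneralType P' (n + 1) → ∃ Ξ : Set (PN M), GGL P' Ξ := by
      intro hgt
      obtain ⟨Ξ, hΞ⟩ := hgg (isGT_of_equiv e hgt)
      exact Pool.Agent.H7.Bir.bir_four hP hdim' hP' e hΞ
    have h2 : ¬ GeneralType P' (n + 1) → ¬ PseudoPicard P' ∧ ¬ PseudoBrody P' ∧ ¬ StronglyGeneralType P' := by
      intro hn
      have hn' : ¬ GeneralType P (n + 1) := fun h => hn (isGT_of_equiv e.symm h)
      have hd : DenseEntire P := by
        intro R e hR hRP
        obtain ⟨f, hf1, -, hf2, hf3, hf4⟩ := hdense hn' R e hR hRP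
        exact ⟨f, hf1, hf2, hf3, hf4⟩
      refine ⟨not_picard hdim' e hd fun f hf hfX hne G hG hGf => no_extend (m := fun _ => m) hP hpol (fun _ => hm) hf hfX hne hG hGf,
        not_brody hdim' e hd, ?_⟩
      rintro ⟨Ξ, hΞc, hΞp, hΞ⟩
      refine hn (hΞ P' hP' le_rfl (fun hsub => hΞp ?_) (n + 1) (Nat.succ_le_succ (Nat.zero_le n)) ?_)
      · refine Set.Subset.antisymm ?_ hsub
        obtain ⟨S, -, hS⟩ := hΞc
        rw [hS]
        exact fun x hx => hx.1
      · obtain ⟨z, hz⟩ := hdim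
        exact ⟨e.symm ∘ z, e.symm.isTranscendenceBasis hz⟩
    refine ⟨⟨fun h => ?_, fun h => ?_⟩, ⟨fun h => ?_, fun h => ?_⟩, ⟨fun h => ?_, fun h => ?_⟩⟩
    · obtain ⟨Ξ, hΞ⟩ := h1 h
      exact ⟨Ξ, hΞ.closed, hΞ.proper, hΞ.picard⟩
    · by_contra hn
      exact (h2 hn).1 h
    · obtain ⟨Ξ, hΞ⟩ := h1 h
      exact ⟨Ξ, hΞ.closed, hΞ.proper, hΞ.brody⟩
    · by_contra hn
      exact (h2 hn).2.1 h
    · obtain ⟨Ξ, hΞ⟩ := h1 h
      exact ⟨Ξ, hΞ.closed, hΞ.proper, fun Q _ => hΞ.strongly Q⟩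
    · by_contra hn
      exact (h2 hn).2.2 h
  · intro hgt M P' _ hP' hz' he s G hG hne
    obtain ⟨e⟩ := he
    obtain ⟨Ξ, hΞ⟩ := hgg hgt
    exact open_up hP hP' hdim hz' e hΞ hG hne

/-- a special form for smooth varieties of general type -/
theorem exists_special [P.IsPrime] (hP : Homog P) (hm : 1 ≤ m) (hθ : Generated θ) {n : ℕ} (hdim : ∃ z : Fin (n + 1) → FunField P, IsTranscendenceBasis ℂ z)
    (hsm : ∀ x : Fin (N + 1) → ℂ, x ≠ 0 → (∀ Q ∈ P, eval x Q = 0) → Module.finrank ℂ (conTan P x) ≤ n + 2) (hgt : GeneralType P (n + 1)) :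
    ∃ (R : MvPolynomial (Fin (N + 1)) ℂ) (e : ℕ), R.IsHomogeneous e ∧ R ∉ P ∧ Special θ R := by
  obtain ⟨M, Ω, R₀, e₀, hM, hR₀, hR₀P, hΩ⟩ := Pool.Agent.GG.exists_canSec hP hdim hsm hgt
  obtain ⟨R, e, hR, hRP, -, hRs⟩ := Pool.Agent.GG.exists_R (m := fun _ => m) (θ := θ) hP (polar_of_generated hm hθ) (fun _ => hm) hdim hM Ω hR₀ hR₀P hΩ
  exact ⟨R, e, hR, hRP, hRs⟩

theorem conclusion_smooth [P.IsPrime] (hP : Homog P) (hm : 1 ≤ m) (hθ : Generated θ) {n : ℕ} (hdim : ∃ z : Fin (n + 1) → FunField P, IsTranscendenceBasis ℂ z)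
    (hsm : IsSmooth P (n + 1)) : Conclusion P (n + 1) :=
  conclusion_of hP hm hθ hdim fun hgt => exists_special hP hm hθ hdim hsm hgt

end Pool.Agent.GT
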