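import Pool.Agent.GT.AbDefs
import Pool.Agent.GT.Top
import Pool.Agent.SY.LangS

/-!
# GT Ab: the special sets
-/

set_option autoImplicit false

open MvPolynomial Topology Filter
open Pool.Agent.H17 (PN VanishesAt HolomorphicInto vanishesAt_mk_iff ZariskiClosedIn)
open Pool.Agent.H17EF (projVar)
open Pool.Agent.H17LG.Variety (FunField)
open Pool.Agent.H62.FC (Homog closureIn specialSet unionImages entireCurves)
open Pool.Agent.H66.Lang (line line_zero line_one analyticAt_line)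
open Pool.Agent.H7.Bir
open Pool.Agent.GG (SymSec)
open Pool.Agent.GB (Generated)
open Pool.Agent.GV (AbelianMap abelianSet)

noncomputable section

namespace Pool.Agent.GT

variable {N M : ℕ}

theorem coord_of_basis {P : Ideal (MvPolynomial (Fin (N + 1)) ℂ)} [P.IsPrime] {w : ℕ} (hw : 1 ≤ w) (h : ∃ z : Fin w → FunField P, IsTranscendenceBasis ℂ z) :
    ∃ i, (X i : MvPolynomial (Fin (N + 1)) ℂ) ∉ P := by
  obtain ⟨w, rfl⟩ : ∃ w', w = w' + 1 := ⟨w - 1, by omega⟩
  obtain ⟨z, hz⟩ := h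
  obtain ⟨i, hi⟩ := Pool.Agent.H92.GT.Proj.exists_coordFun_ne_zero P z hz
  exact ⟨i, Pool.Agent.H17R.coordFun_ne_zero_iff.1 hi⟩

/-! ## closures -/

theorem closureIn_vanish {X S : Set (PN N)} {T : MvPolynomial (Fin (N + 1)) ℂ} {e : ℕ} (hT : T.IsHomogeneous e) (h : ∀ x ∈ S, VanishesAt T x) :
    ∀ x ∈ closureIn X S, VanishesAt T x := fun _ hx => hx.2 e T hT h

theorem closureIn_ne {P : Ideal (MvPolynomial (Fin (N + 1)) ℂ)} [P.IsPrime] (hP : Homog P) (hX : ∃ i, (X i : MvPolynomial (Fin (N + 1)) ℂ) ∉ P) {S : Set (PN N)}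
    {T : MvPolynomial (Fin (N + 1)) ℂ} {e : ℕ} (hT : T.IsHomogeneous e) (hTP : T ∉ P) (h : ∀ x ∈ S, VanishesAt T x) : closureIn (projVar P) S ≠ projVar P := by
  intro heq
  obtain ⟨x, hx, hxT⟩ := Pool.Agent.H17EF.exists_point hP hX hTP hT
  rw [← heq] at hx
  exact hxT (closureIn_vanish hT h x hx)

theorem closureIn_eq_of_dense {P : Ideal (MvPolynomial (Fin (N + 1)) ℂ)} {S : Set (PN N)}
    (h : ∀ (T : MvPolynomial (Fin (N + 1)) ℂ) (e : ℕ), T.IsHomogeneous e → T ∉ P → ∃ x ∈ S, ¬ VanishesAt T x) : closureIn (projVar P) S = projVar P := by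
  refine Set.Subset.antisymm (fun x hx => hx.1) fun x hx => ⟨hx, fun e T hT hS => ?_⟩
  by_cases hTP : T ∈ P
  · exact hx T hTP e hT
  · obtain ⟨y, hy, hyT⟩ := h T e hT hTP
    exact absurd (hS y hy) hyT

theorem closureIn_closed (X S : Set (PN N)) : ZariskiClosedIn X (closureIn X S) := by
  refine ⟨{T | (∃ e, T.IsHomogeneous e) ∧ ∀ y ∈ S, VanishesAt T y}, fun T hT => hT.1, ?_⟩
  ext x
  exact ⟨fun hx => ⟨hx.1, fun T hT => by
    obtain ⟨⟨e, he⟩, h⟩ := hT
    exact hx.2 e T he h⟩, fun hx => ⟨hx.1, fun e T hT h => hx.2 T ⟨⟨e, hT⟩, h⟩⟩⟩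

/-! ## the special set -/

theorem specialSet_vanish {P : Ideal (MvPolynomial (Fin (N + 1)) ℂ)} {T : MvPolynomial (Fin (N + 1)) ℂ} {e : ℕ} (hT : T.IsHomogeneous e)
    (h : ∀ f : ℂ → PN N, HolomorphicInto f Set.univ → (∀ z, f z ∈ projVar P) → (∃ z w, f z ≠ f w) → ∀ z, VanishesAt T (f z)) :
    ∀ x ∈ specialSet (projVar P), VanishesAt T x := by
  rw [Pool.Agent.SY.Lang.specialSet_eq]
  refine closureIn_vanish hT ?_
  rintro x ⟨f, hf, hfX, hne, z, rfl⟩
  exact h f hf hfX hne z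

theorem mem_specialSet {X : Set (PN N)} {f : ℂ → PN N} (hf : HolomorphicInto f Set.univ) (hfX : ∀ z, f z ∈ X) (hne : ∃ z w, f z ≠ f w) (z : ℂ) :
    f z ∈ specialSet X := by
  rw [Pool.Agent.SY.Lang.specialSet_eq]
  exact ⟨hfX z, fun k Q _ h => h _ ⟨f, hf, hfX, hne, z, rfl⟩⟩

theorem pseudoBrody_of_specialSet {P : Ideal (MvPolynomial (Fin (N + 1)) ℂ)} (h : specialSet (projVar P) ≠ projVar P) : PseudoBrody P :=
  ⟨_, closureIn_closed _ _, h, fun _ hf hfX hne z => mem_specialSet hf hfX hne z⟩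

/-! ## rational maps from abelian varieties -/

theorem curve_of_abelian (A : AbelianMap N) (p q : Fin A.g → ℂ) : HolomorphicInto (fun z => A.f (line p q z)) Set.univ := by
  intro z _
  obtain ⟨φ, hφ, he⟩ := A.holomorphic (line p q z) (Set.mem_univ _)
  have h1 := analyticAt_line p q z
  exact ⟨fun w => φ (line p q w), AnalyticAt.comp (g := φ) (f := line p q) hφ h1, h1.continuousAt.tendsto.eventually he⟩

/-- The image of a nonconstant rational map from an abelian variety is covered by nonconstant entire curves. -/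
theorem abelian_vanish {P : Ideal (MvPolynomial (Fin (N + 1)) ℂ)} {T : MvPolynomial (Fin (N + 1)) ℂ}
    (h : ∀ f : ℂ → PN N, HolomorphicInto f Set.univ → (∀ z, f z ∈ projVar P) → (∃ z w, f z ≠ f w) → ∀ z, VanishesAt T (f z))
    (R : AbelianRationalMap N) (hR : R.image ⊆ projVar P) (hne : ∃ y ∈ R.image, ∃ z ∈ R.image, y ≠ z) {x : PN N} (hx : x ∈ R.image) : VanishesAt T x := by
  obtain ⟨x', hx', hxx'⟩ : ∃ x' ∈ R.image, x' ≠ x := by
    obtain ⟨y, hy, z, hz, hyz⟩ := hne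
    by_cases h1 : y = x
    · exact ⟨z, hz, fun h2 => hyz (h1.trans h2.symm)⟩
    · exact ⟨y, hy, h1⟩
  obtain ⟨t, ht, rfl⟩ := hx
  obtain ⟨t', ht', rfl⟩ := hx'
  have hf := curve_of_abelian R.A t t'
  obtain ⟨i₀, hi₀⟩ : ∃ i, ¬ VanishesAt (R.γ i) (R.A.f (line t t' 0)) := by
    by_contra hcon
    push Not at hcon
    rw [line_zero] at hcon
    exact ht (funext hcon)
  obtain ⟨g, hg, hg1, hg2⟩ := exists_comp R.homogeneous isOpen_univ isPreconnected_univ hf (Set.mem_univ 0) hi₀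
  have hv0 : vals R.γ (R.A.f (line t t' 0)).rep ≠ 0 := fun h0 => hi₀ (congrFun h0 i₀)
  have hg0 : g 0 = Projectivization.mk ℂ (vals R.γ (R.A.f t).rep) ht := by
    rw [hg1 0 (Set.mem_univ _) hv0]
    unfold Pool.Agent.H7.Bir.rmap
    rw [dif_pos hv0]
    simp only [line_zero]
  have hv1 : vals R.γ (R.A.f (line t t' 1)).rep ≠ 0 := by
    rw [line_one]
    exact ht'
  have hg1' : g 1 = Projectivization.mk ℂ (vals R.γ (R.A.f t').rep) ht' := by
    rw [hg1 1 (Set.mem_univ _) hv1]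
    unfold Pool.Agent.H7.Bir.rmap
    rw [dif_pos hv1]
    simp only [line_one]
  have hgX : ∀ z, g z ∈ projVar P := by
    intro z Q hQ n hn
    obtain ⟨ψ, hψ, he⟩ := hg z (Set.mem_univ z)
    obtain ⟨h1, h2⟩ := he.self_of_nhds
    rw [h2, vanishesAt_mk_iff hn]
    have hcont : ContinuousAt (fun w => eval (ψ w) Q) z := by
      have h1 : AnalyticAt ℂ (fun w => MvPolynomial.aeval (ψ w) Q) z := AnalyticAt.aeval_mvPolynomial (fun i => analyticAt_pi_iff.mp hψ i) Q
      exact h1.continuousAt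
    have h0 : ∀ᶠ w in 𝓝[≠] z, eval (ψ w) Q = 0 := by
      filter_upwards [hg2 z (Set.mem_univ z), he.filter_mono nhdsWithin_le_nhds] with w h3 h4
      obtain ⟨h5, h6⟩ := h3
      obtain ⟨h7, h8⟩ := h4
      have h9 : g w ∈ projVar P := by
        rw [h6]
        refine hR ⟨line t t' w, h5, ?_⟩
        unfold Pool.Agent.H7.Bir.rmap
        rw [dif_pos h5]
      have h10 := h9 Q hQ n hn
      rwa [h8, vanishesAt_mk_iff hn] at h10
    exact tendsto_nhds_unique (hcont.tendsto.mono_left nhdsWithin_le_nhds) (tendsto_const_nhds.congr' (h0.mono fun w hw => hw.symm))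
  rw [← hg0]
  refine h g hg hgX ⟨0, 1, fun h3 => hxx' ?_⟩ 0
  rw [← hg0, ← hg1', h3]

theorem abelianRationalSet_vanish {P : Ideal (MvPolynomial (Fin (N + 1)) ℂ)} {T : MvPolynomial (Fin (N + 1)) ℂ} {e : ℕ} (hT : T.IsHomogeneous e)
    (h : ∀ f : ℂ → PN N, HolomorphicInto f Set.univ → (∀ z, f z ∈ projVar P) → (∃ z w, f z ≠ f w) → ∀ z, VanishesAt T (f z)) :
    ∀ x ∈ abelianRationalSet (projVar P), VanishesAt T x := by
  refine closureIn_vanish hT ?_
  rintro x ⟨R, hR, hne, hx⟩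
  exact abelian_vanish h R hR hne hx

/-- the morphisms from abelian varieties are Zariski dense -/
def DenseAbelian (P : Ideal (MvPolynomial (Fin (N + 1)) ℂ)) : Prop :=
  ∀ (R : MvPolynomial (Fin (N + 1)) ℂ) (e : ℕ), R.IsHomogeneous e → R ∉ P → ∃ A : AbelianMap N, (∀ t, A.f t ∈ projVar P) ∧ ¬ VanishesAt R (A.f 0)

/-- **Rational maps from abelian varieties and birational maps.** -/
theorem abelianRationalSet_eq {P : Ideal (MvPolynomial (Fin (N + 1)) ℂ)} [hPp : P.IsPrime] {P' : Ideal (MvPolynomial (Fin (M + 1)) ℂ)} [P'.IsPrime]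
    (hdim : ∃ (w : ℕ) (z : Fin (w + 1) → FunField P), IsTranscendenceBasis ℂ z) (e : FunField P' ≃ₐ[ℂ] FunField P) (hd : DenseAbelian P) :
    abelianRationalSet (projVar P') = projVar P' := by
  obtain ⟨D, D', α, γ, i', i, h, hb⟩ := exists_data hdim e
  refine closureIn_eq_of_dense fun T n hT hTP => ?_
  have hq : (badForm α γ i' i * aeval γ T).IsHomogeneous _ := h.bad_homog.mul (hT.aeval γ h.homγ)
  have hqP : badForm α γ i' i * aeval γ T ∉ P := by
    intro hcon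
    rcases hPp.mem_or_mem hcon with h1 | h1
    · exact hb h1
    · exact hTP ((h.maps n T hT).1 h1)
  obtain ⟨A, hA, hA0⟩ := hd _ _ hq hqP
  unfold VanishesAt at hA0
  rw [map_mul, mul_eq_zero, not_or] at hA0
  obtain ⟨hv, -, -⟩ := h.comp_eq (hA 0) hA0.1
  let R : AbelianRationalMap M := ⟨N, A, D', γ, h.homγ⟩
  have hmem : ∀ t, vals γ (A.f t).rep ≠ 0 → rmap γ (A.f t) ∈ R.image := by
    intro t ht
    refine ⟨t, ht, ?_⟩
    unfold Pool.Agent.H7.Bir.rmap
    rw [dif_pos ht]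
  have hRX : R.image ⊆ projVar P' := by
    rintro x ⟨t, ht, rfl⟩
    have h1 := h.mem (hA t) ht
    unfold Pool.Agent.H7.Bir.rmap at h1
    rw [dif_pos ht] at h1
    exact h1
  refine ⟨rmap γ (A.f 0), ⟨R, hRX, ?_, hmem 0 hv⟩, ?_⟩
  · by_contra hcon
    push Not at hcon
    -- a line on which the morphism is not constant
    obtain ⟨t₁, ht₁⟩ : ∃ t₁, A.f t₁ ≠ A.f 0 := by
      obtain ⟨t, t', htt⟩ := A.nonconstant
      by_cases h1 : A.f t = A.f 0
      · exact ⟨t', fun h2 => htt (h1.trans h2.symm)⟩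
      · exact ⟨t, h1⟩
    have hf := curve_of_abelian A 0 t₁
    obtain ⟨g, hg, -, hg0, hgn⟩ := h.lift isOpen_univ isPreconnected_univ hf (fun z _ => hA _) (Set.mem_univ 0) (by
      rw [line_zero]
      exact hA0.1)
    -- near `0` the values of the rational map are in the image
    have hbad : ∀ᶠ z in 𝓝 (0 : ℂ), ¬ VanishesAt (badForm α γ i' i) (A.f (line 0 t₁ z)) := by
      obtain ⟨φ, hφ, he⟩ := hf 0 (Set.mem_univ _)
      have hcont : ContinuousAt (fun w => eval (φ w) (badForm α γ i' i)) 0 := by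
        have h1 : AnalyticAt ℂ (fun w => MvPolynomial.aeval (φ w) (badForm α γ i' i)) 0 := AnalyticAt.aeval_mvPolynomial (fun i => analyticAt_pi_iff.mp hφ i) _
        exact h1.continuousAt
      have h0 : eval (φ 0) (badForm α γ i' i) ≠ 0 := by
        obtain ⟨h1, h2⟩ := he.self_of_nhds
        intro h3
        apply hA0.1
        have h4 : VanishesAt (badForm α γ i' i) (A.f (line 0 t₁ 0)) := by
          have h5 : A.f (line 0 t₁ 0) = Projectivization.mk ℂ (φ 0) h1 := h2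
          rw [h5, vanishesAt_mk_iff h.bad_homog]
          exact h3
        rw [line_zero] at h4
        exact h4
      filter_upwards [he, hcont.eventually_ne h0] with z h1 h2
      obtain ⟨h3, h4⟩ := h1
      have h5 : A.f (line 0 t₁ z) = Projectivization.mk ℂ (φ z) h3 := h4
      rw [h5, vanishesAt_mk_iff h.bad_homog]
      exact h2
    have hconst : ∀ᶠ z in 𝓝 (0 : ℂ), A.f (line 0 t₁ z) = (fun _ => A.f 0) z := by
      filter_upwards [hbad] with z hz
      obtain ⟨h1, h2, h3⟩ := h.comp_eq (hA (line 0 t₁ z)) hz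
      obtain ⟨h4, h5, h6⟩ := h.comp_eq (hA 0) hA0.1
      show A.f (line 0 t₁ z) = A.f 0
      rw [← h3, ← h6, hcon _ (hmem _ h1) _ (hmem _ h4)]
    have h1 := pn_identity isPreconnected_univ hf (const_hol _) (Set.mem_univ 0) hconst 1 (Set.mem_univ _)
    simp only [line_one] at h1
    exact ht₁ h1
  · rw [vanishesAt_rmap hv hT]
    exact hA0.2

/-! ## the conclusion -/

theorem specialForm_of_ggl {P : Ideal (MvPolynomial (Fin (N + 1)) ℂ)} {T : MvPolynomial (Fin (N + 1)) ℂ} [P.IsPrime] {e : ℕ} (hT : T.IsHomogeneous e) (hTP : T ∉ P)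
    (h : GGL P {x | x ∈ projVar P ∧ VanishesAt T x}) : SpecialForm P T := by
  have hb : ∀ f : ℂ → PN N, HolomorphicInto f Set.univ → (∀ z, f z ∈ projVar P) → (∃ z w, f z ≠ f w) → ∀ z, VanishesAt T (f z) :=
    fun f hf hfX hne z => (h.brody f hf hfX hne z).2
  refine ⟨⟨⟨e, hT⟩, hTP⟩, hb, specialSet_vanish hT hb, ?_⟩
  intro Q _ hQ hPQ hTQ w hw hzw
  have hX := coord_of_basis hw hzw
  refine ⟨h.strongly Q hQ hPQ (fun hsub => ?_) w hw hzw, ?_⟩
  · obtain ⟨x, hx, hxT⟩ := Pool.Agent.H17EF.exists_point hQ hX hTQ hT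
    exact hxT (hsub hx).2
  · intro heq
    obtain ⟨x, hx, hxT⟩ := Pool.Agent.H17EF.exists_point hQ hX hTQ hT
    rw [← heq] at hx
    exact hxT (specialSet_vanish hT (fun f hf hfX hne z => hb f hf (fun z R hR n hn => hfX z R (hPQ hR) n hn) hne z) x hx)

section

variable {P : Ideal (MvPolynomial (Fin (N + 1)) ℂ)} [P.IsPrime] {J m : ℕ} {θ : Fin J → SymSec P m} {n : ℕ}

theorem lang_ggl (hP : Homog P) (hm : 1 ≤ m) (hθ : Generated θ) (hdim : ∃ z : Fin (n + 1) → FunField P, IsTranscendenceBasis ℂ z)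
    (hex : GeneralType P (n + 1) → ∃ (R : MvPolynomial (Fin (N + 1)) ℂ) (e : ℕ), R.IsHomogeneous e ∧ R ∉ P ∧ Special θ R) (hgt : GeneralType P (n + 1))
    {P' : Ideal (MvPolynomial (Fin (M + 1)) ℂ)} [P'.IsPrime] (hP' : Homog P') (hz' : ∃ z : Fin (n + 1) → FunField P', IsTranscendenceBasis ℂ z)
    (e : FunField P →ₐ[ℂ] FunField P') : ∃ (T : MvPolynomial (Fin (M + 1)) ℂ) (d : ℕ), T.IsHomogeneous d ∧ T ∉ P' ∧ GGL P' {x | x ∈ projVar P' ∧ VanishesAt T x} := by
  obtain ⟨R, d, hR, hRP, hRs⟩ := hex hgt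
  obtain ⟨z, hz⟩ := id hdim
  obtain ⟨z', hz'⟩ := id hz'
  exact ggl_up hP hP' hz hz' e (ggl_of_special hP hm hθ hdim hgt hR hRP hRs)

theorem lang_form (hP : Homog P) (hm : 1 ≤ m) (hθ : Generated θ) (hdim : ∃ z : Fin (n + 1) → FunField P, IsTranscendenceBasis ℂ z)
    (hex : GeneralType P (n + 1) → ∃ (R : MvPolynomial (Fin (N + 1)) ℂ) (e : ℕ), R.IsHomogeneous e ∧ R ∉ P ∧ Special θ R) (hgt : GeneralType P (n + 1))
    {P' : Ideal (MvPolynomial (Fin (M + 1)) ℂ)} [P'.IsPrime] (hP' : Homog P') (hz' : ∃ z : Fin (n + 1) → FunField P', IsTranscendenceBasis ℂ z)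
    (e : FunField P →ₐ[ℂ] FunField P') : ∃ T, SpecialForm P' T := by
  obtain ⟨T, d, hT, hTP, h⟩ := lang_ggl hP hm hθ hdim hex hgt hP' hz' e
  exact ⟨T, specialForm_of_ggl hT hTP h⟩

/-- a form with the properties of `SpecialForm` gives proper special sets -/
theorem ne_of_form {P' : Ideal (MvPolynomial (Fin (M + 1)) ℂ)} [P'.IsPrime] (hP' : Homog P') {n : ℕ} (hz' : ∃ z : Fin (n + 1) → FunField P', IsTranscendenceBasis ℂ z)
    {T : MvPolynomial (Fin (M + 1)) ℂ} (hT : SpecialForm P' T) : specialSet (projVar P') ≠ projVar P' ∧ abelianRationalSet (projVar P') ≠ projVar P' := by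
  have hX' := coord_of_basis (Nat.succ_le_succ (Nat.zero_le n)) hz'
  refine ⟨(hT.subvarieties P' hP' le_rfl hT.form.2 (n + 1) (Nat.succ_le_succ (Nat.zero_le n)) hz').2, ?_⟩
  obtain ⟨d, hd⟩ := hT.form.1
  intro heq
  obtain ⟨x, hx, hxT⟩ := Pool.Agent.H17EF.exists_point hP' hX' hT.form.2 hd
  rw [← heq] at hx
  exact hxT (abelianRationalSet_vanish hd hT.curves x hx)

/-- **The equivalence for varieties birational to `Y`.** -/
theorem lang_equiv (hP : Homog P) (hm : 1 ≤ m) (hθ : Generated θ) (hdim : ∃ z : Fin (n + 1) → FunField P, IsTranscendenceBasis ℂ z)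
    (hex : GeneralType P (n + 1) → ∃ (R : MvPolynomial (Fin (N + 1)) ℂ) (e : ℕ), R.IsHomogeneous e ∧ R ∉ P ∧ Special θ R)
    (hab : ¬ GeneralType P (n + 1) → DenseAbelian P) {P' : Ideal (MvPolynomial (Fin (M + 1)) ℂ)} [P'.IsPrime] (hP' : Homog P') (e : FunField P' ≃ₐ[ℂ] FunField P) :
    (specialSet (projVar P') ≠ projVar P' ↔ GeneralType P' (n + 1)) ∧ (abelianRationalSet (projVar P') ≠ projVar P' ↔ GeneralType P' (n + 1)) := by
  have hdim' : ∃ (w : ℕ) (z : Fin (w + 1) → FunField P), IsTranscendenceBasis ℂ z := ⟨n, hdim⟩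
  have hc := (conclusion_of hP hm hθ hdim hex).equiv M P' hP' ⟨e⟩
  have hz' : ∃ z : Fin (n + 1) → FunField P', IsTranscendenceBasis ℂ z := by
    obtain ⟨z, hz⟩ := hdim
    exact ⟨e.symm ∘ z, e.symm.isTranscendenceBasis hz⟩
  have hform : GeneralType P' (n + 1) → specialSet (projVar P') ≠ projVar P' ∧ abelianRationalSet (projVar P') ≠ projVar P' := fun h => by
    obtain ⟨T, hT⟩ := lang_form hP hm hθ hdim hex (isGT_of_equiv e h) hP' hz' (e.symm : FunField P →ₐ[ℂ] FunField P')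
    exact ne_of_form hP' hz' hT
  refine ⟨⟨fun h => hc.2.1.2 (pseudoBrody_of_specialSet h), fun h => (hform h).1⟩, ⟨fun h => ?_, fun h => (hform h).2⟩⟩
  by_contra hn
  exact h (abelianRationalSet_eq hdim' e (hab fun h1 => hn (isGT_of_equiv e.symm h1)))

end

end Pool.Agent.GT
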