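import Pool.Agent.GT.Defs
import Pool.Agent.GV.Defs
import Pool.Agent.H62.Qe.Defs

/-!
# GT AbDefs: rational maps from abelian varieties, and the conclusion about the special sets
-/

set_option autoImplicit false

open MvPolynomial
open Pool.Agent.H17 (PN VanishesAt HolomorphicInto)
open Pool.Agent.H17EF (projVar)
open Pool.Agent.H17LG.Variety (FunField)
open Pool.Agent.H62.FC (Homog closureIn specialSet)
open Pool.Agent.H7.Bir (vals)
open Pool.Agent.GV (AbelianMap abelianSet)
open Pool.Agent.H62.Qe (IsEtaleOver)

noncomputable section

namespace Pool.Agent.GT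

variable {N M : ℕ}

/-- A rational map from an abelian variety `A` to `ℙ^N`: a morphism from `A` to some `ℙ^M` (for instance an embedding) followed by forms `γ 0, …, γ N` of the same degree. -/
structure AbelianRationalMap (N : ℕ) where
  /-- the dimension of the projective space -/
  M : ℕ
  /-- the morphism from the abelian variety to `ℙ^M` -/
  A : AbelianMap M
  /-- the degree of the forms -/
  D : ℕ
  /-- the forms -/
  γ : Fin (N + 1) → MvPolynomial (Fin (M + 1)) ℂ
  homogeneous : ∀ i, (γ i).IsHomogeneous D

/-- The image of a rational map from an abelian variety: the points `(γ 0 : … : γ N)` where these forms are not all `0`. -/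
def AbelianRationalMap.image (R : AbelianRationalMap N) : Set (PN N) :=
  {x | ∃ t, ∃ h : vals R.γ (R.A.f t).rep ≠ 0, x = Projectivization.mk ℂ (vals R.γ (R.A.f t).rep) h}

/-- The Zariski closure in `X` of the union of the images of all nonconstant rational maps from abelian varieties to `X`. -/
def abelianRationalSet (X : Set (PN N)) : Set (PN N) :=
  closureIn X {x | ∃ R : AbelianRationalMap N, R.image ⊆ X ∧ (∃ y ∈ R.image, ∃ z ∈ R.image, y ≠ z) ∧ x ∈ R.image}

/-- The form `1`, without zeros: `locVar P (triv N)` is the projective variety of `P`. -/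
def triv (N : ℕ) : Fin 1 → MvPolynomial (Fin (N + 1)) ℂ := fun _ => 1

/-- All nonconstant entire curves in the projective variety `X` given by `P` and the special set of `X` are contained in `{T = 0}`, which does not contain `X`; every closed subvariety `Z` of
`X` of positive dimension which is not contained in `{T = 0}` is of general type, and its special set is not `Z`. -/
structure SpecialForm (P : Ideal (MvPolynomial (Fin (N + 1)) ℂ)) (T : MvPolynomial (Fin (N + 1)) ℂ) : Prop where
  form : (∃ e, T.IsHomogeneous e) ∧ T ∉ P
  curves : ∀ f : ℂ → PN N, HolomorphicInto f Set.univ → (∀ z, f z ∈ projVar P) → (∃ z w, f z ≠ f w) → ∀ z, VanishesAt T (f z)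
  special : ∀ x ∈ specialSet (projVar P), VanishesAt T x
  subvarieties : ∀ (Q : Ideal (MvPolynomial (Fin (N + 1)) ℂ)) [Q.IsPrime], Homog Q → P ≤ Q → T ∉ Q → ∀ w, 1 ≤ w → (∃ z : Fin w → FunField Q, IsTranscendenceBasis ℂ z) →
    GeneralType Q w ∧ specialSet (projVar Q) ≠ projVar Q

/-- The projective variety `X'` given by `P'` is birational to the projective variety `Y` given by `P`, or some finite étale covering of `X'` is. -/
def VirtBirational (P : Ideal (MvPolynomial (Fin (N + 1)) ℂ)) [P.IsPrime] (P' : Ideal (MvPolynomial (Fin (M + 1)) ℂ)) [P'.IsPrime] : Prop :=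
  Nonempty (FunField P' ≃ₐ[ℂ] FunField P) ∨
    ∃ (L : ℕ) (P₁ : Ideal (MvPolynomial (Fin (L + 1)) ℂ)) (_ : P₁.IsPrime) (p : PN L → PN M), Homog P₁ ∧ IsEtaleOver P' P₁ (triv M) (triv L) p ∧
      Nonempty (FunField P₁ ≃ₐ[ℂ] FunField P)

/-- There is a dominant rational map to the projective variety `Y` given by `P` from the projective variety `X'` given by `P'`, or from some finite étale covering of `X'`. -/
def VirtDominates (P : Ideal (MvPolynomial (Fin (N + 1)) ℂ)) [P.IsPrime] (P' : Ideal (MvPolynomial (Fin (M + 1)) ℂ)) [P'.IsPrime] : Prop :=
  Nonempty (FunField P →ₐ[ℂ] FunField P') ∨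
    ∃ (L : ℕ) (P₁ : Ideal (MvPolynomial (Fin (L + 1)) ℂ)) (_ : P₁.IsPrime) (p : PN L → PN M), Homog P₁ ∧ IsEtaleOver P' P₁ (triv M) (triv L) p ∧
      Nonempty (FunField P →ₐ[ℂ] FunField P₁)

/-- The conclusion, for the projective variety `Y` of dimension `n` given by the homogeneous prime ideal `P`. -/
structure LangConclusion (P : Ideal (MvPolynomial (Fin (N + 1)) ℂ)) [P.IsPrime] (n : ℕ) : Prop where
  /-- For every projective variety `X'` of dimension `n` which is birational to `Y`, or has a finite étale covering which is birational to `Y`: it is of general type if and only if its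
  special set is not `X'`, if and only if the images of the nonconstant rational maps from abelian varieties are not Zariski dense. -/
  equiv : ∀ (M : ℕ) (P' : Ideal (MvPolynomial (Fin (M + 1)) ℂ)) [P'.IsPrime], Homog P' → (∃ z : Fin n → FunField P', IsTranscendenceBasis ℂ z) → VirtBirational P P' →
    (specialSet (projVar P') ≠ projVar P' ↔ GeneralType P' n) ∧ (abelianRationalSet (projVar P') ≠ projVar P' ↔ GeneralType P' n)
  /-- If `Y` is of general type, then every projective variety of dimension `n` with a dominant rational map to `Y`, or with a finite étale covering with such a map, has a form with the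
  properties of `SpecialForm`. -/
  general : GeneralType P n → ∀ (M : ℕ) (P' : Ideal (MvPolynomial (Fin (M + 1)) ℂ)) [P'.IsPrime], Homog P' → (∃ z : Fin n → FunField P', IsTranscendenceBasis ℂ z) →
    VirtDominates P P' → ∃ T, SpecialForm P' T
  /-- If `Y` is not of general type, then the images of the nonconstant morphisms from abelian varieties to `Y` are Zariski dense. -/
  abelian : ¬ GeneralType P n → abelianSet (projVar P) = projVar P

end Pool.Agent.GT
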