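import Pool.Agent.H7.Bir.Open
import Pool.Agent.H13.OT.Wrap
import Pool.Agent.H13.SM.Grad

/-!
# GT Defs: the four properties, and the conclusion of the theorem
-/

set_option autoImplicit false

open MvPolynomial
open Pool.Agent.H17 (PN VanishesAt HolomorphicInto puncturedDisc ZariskiClosedIn)
open Pool.Agent.H17EF (projVar)
open Pool.Agent.H13.OT (OrderTwo)
open Pool.Agent.H17LG.Variety (FunField IsLogGeneralType)
open Pool.Agent.H62.FC (Homog)
open Pool.Agent.H62.SA (locVar)
open Pool.Agent.H7.Bir (GGLOpen)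
open Pool.Agent.H13.SM (conTan)

namespace Pool.Agent.GT

variable {N : ℕ}

/-- The projective variety given by `P`, of dimension `n`, is smooth: at every nonzero point of its affine cone the tangent space of the cone has dimension
at most `n + 1`. -/
def IsSmooth (P : Ideal (MvPolynomial (Fin (N + 1)) ℂ)) (n : ℕ) : Prop :=
  ∀ x : Fin (N + 1) → ℂ, x ≠ 0 → (∀ Q ∈ P, eval x Q = 0) → Module.finrank ℂ (conTan P x) ≤ n + 1

/-- (i) The projective variety given by `P`, of dimension `n`, is of general type. -/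
def GeneralType (P : Ideal (MvPolynomial (Fin (N + 1)) ℂ)) [P.IsPrime] (n : ℕ) : Prop :=
  IsLogGeneralType (K := FunField P) (k := n) fun _ => False

/-- (ii) All holomorphic maps of the punctured disc to the variety whose image is not contained in a certain proper closed subset extend to the disc. -/
def PseudoPicard (P : Ideal (MvPolynomial (Fin (N + 1)) ℂ)) : Prop :=
  ∃ Ξ : Set (PN N), ZariskiClosedIn (projVar P) Ξ ∧ Ξ ≠ projVar P ∧
    ∀ f : ℂ → PN N, HolomorphicInto f puncturedDisc → (∀ z ∈ puncturedDisc, f z ∈ projVar P) → (∃ z ∈ puncturedDisc, f z ∉ Ξ) →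
      ∃ g : ℂ → PN N, HolomorphicInto g (Metric.ball 0 1) ∧ ∀ z ∈ puncturedDisc, g z = f z

/-- (iii) All nonconstant entire curves in the variety are contained in a certain proper closed subset. -/
def PseudoBrody (P : Ideal (MvPolynomial (Fin (N + 1)) ℂ)) : Prop :=
  ∃ Ξ : Set (PN N), ZariskiClosedIn (projVar P) Ξ ∧ Ξ ≠ projVar P ∧
    ∀ f : ℂ → PN N, HolomorphicInto f Set.univ → (∀ z, f z ∈ projVar P) → (∃ z w, f z ≠ f w) → ∀ z, f z ∈ Ξ

/-- (iv) All closed subvarieties of positive dimension which are not contained in a certain proper closed subset are of general type. -/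
def StronglyGeneralType (P : Ideal (MvPolynomial (Fin (N + 1)) ℂ)) : Prop :=
  ∃ Ξ : Set (PN N), ZariskiClosedIn (projVar P) Ξ ∧ Ξ ≠ projVar P ∧
    ∀ (Q : Ideal (MvPolynomial (Fin (N + 1)) ℂ)) [Q.IsPrime], Homog Q → P ≤ Q → ¬ projVar Q ⊆ Ξ →
      ∀ w, 1 ≤ w → (∃ z : Fin w → FunField Q, IsTranscendenceBasis ℂ z) → GeneralType Q w

/-- The conclusion, for the projective variety `Y` of dimension `n` given by the homogeneous prime ideal `P`. -/
structure Conclusion (P : Ideal (MvPolynomial (Fin (N + 1)) ℂ)) [P.IsPrime] (n : ℕ) : Prop where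
  /-- The four properties are equivalent for every projective variety which is birational to `Y`. -/
  equiv : ∀ (M : ℕ) (P' : Ideal (MvPolynomial (Fin (M + 1)) ℂ)) [P'.IsPrime], Homog P' → Nonempty (FunField P' ≃ₐ[ℂ] FunField P) →
    (GeneralType P' n ↔ PseudoPicard P') ∧ (GeneralType P' n ↔ PseudoBrody P') ∧ (GeneralType P' n ↔ StronglyGeneralType P')
  /-- If `Y` is of general type, then every quasi-projective variety of the same dimension with a dominant rational map to `Y` has the four properties, with one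
  exceptional set. -/
  up : GeneralType P n → ∀ (M : ℕ) (P' : Ideal (MvPolynomial (Fin (M + 1)) ℂ)) [P'.IsPrime], Homog P' →
    (∃ z : Fin n → FunField P', IsTranscendenceBasis ℂ z) → Nonempty (FunField P →ₐ[ℂ] FunField P') →
    ∀ (s : ℕ) (G : Fin s → MvPolynomial (Fin (M + 1)) ℂ), (∀ l, ∃ e, (G l).IsHomogeneous e) → (locVar P' G).Nonempty →
      ∃ Ξ : Set (PN M), GGLOpen P' G Ξ
  /-- If `Y` is not of general type, then the nonconstant entire curves of order at most two in `Y` are Zariski dense in `Y`. -/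
  dense : ¬ GeneralType P n → ∀ (R : MvPolynomial (Fin (N + 1)) ℂ) (e : ℕ), R.IsHomogeneous e → R ∉ P →
    ∃ f : ℂ → PN N, HolomorphicInto f Set.univ ∧ OrderTwo f ∧ (∀ z, f z ∈ projVar P) ∧ (∃ z w, f z ≠ f w) ∧ ¬ VanishesAt R (f 0)

end Pool.Agent.GT
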