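import Pool.Agent.GT.Top
import Pool.Agent.GT.Res
import Pool.Agent.GQ.Fin

/-!
# GT Sing: all closed subvarieties of a variety with generating symmetric differentials, singular allowed
-/

set_option autoImplicit false

open MvPolynomial
open Pool.Agent.H17LG.Variety (FunField IsLogGeneralType)
open Pool.Agent.H62.FC (Homog)
open Pool.Agent.GG (SymSec)
open Pool.Agent.GB (Generated polar_of_generated)

namespace Pool.Agent.GT

variable {N : ℕ} {P : Ideal (MvPolynomial (Fin (N + 1)) ℂ)} {J m : ℕ} {θ : Fin J → SymSec P m}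

/-- a special form for varieties of general type, singular allowed -/
theorem exists_special_sing [P.IsPrime] (hP : Homog P) (hm : 1 ≤ m) (hθ : Generated θ) {n : ℕ} (hdim : ∃ z : Fin (n + 1) → FunField P, IsTranscendenceBasis ℂ z)
    (hgt : GeneralType P (n + 1)) : ∃ (R : MvPolynomial (Fin (N + 1)) ℂ) (e : ℕ), R.IsHomogeneous e ∧ R ∉ P ∧ Special θ R := by
  obtain ⟨R, e, hR, hRP, -, hRs⟩ := Pool.Agent.GQ.exists_R_sing (m := fun _ => m) hP θ (polar_of_generated hm hθ) (fun _ => hm) hdim hgt
  exact ⟨R, e, hR, hRP, hRs⟩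

/-- the conclusion for the closed subvarieties, singular allowed -/
theorem conclusion_sub (hm : 1 ≤ m) (hθ : Generated θ) (Q : Ideal (MvPolynomial (Fin (N + 1)) ℂ)) [Q.IsPrime] (hQ : Homog Q) (hPQ : P ≤ Q) {n : ℕ}
    (hdim : ∃ z : Fin (n + 1) → FunField Q, IsTranscendenceBasis ℂ z) : Conclusion Q (n + 1) :=
  conclusion_of hQ hm (generated_res hPQ hθ) hdim fun hgt => exists_special_sing hQ hm (generated_res hPQ hθ) hdim hgt

end Pool.Agent.GT
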