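import Pool.Agent.GT.SpcDefs
import Pool.Agent.GT.Top

/-!
# GT Spc: the special set
-/

set_option autoImplicit false

open MvPolynomial
open Pool.Agent.H17 (PN VanishesAt HolomorphicInto)
open Pool.Agent.H17EF (projVar)
open Pool.Agent.H13.OT (OrderTwo)
open Pool.Agent.H17LG.Variety (FunField)
open Pool.Agent.H62.FC (Homog)
open Pool.Agent.TG (sabSpecialSet)
open Pool.Agent.H7.Bir (GGL)
open Pool.Agent.GG (SymSec)
open Pool.Agent.GB (Generated)

namespace Pool.Agent.GT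

variable {N : ℕ} {P : Ideal (MvPolynomial (Fin (N + 1)) ℂ)}

theorem exists_coord_of_basis [P.IsPrime] {n : ℕ} (h : ∃ z : Fin (n + 1) → FunField P, IsTranscendenceBasis ℂ z) : ∃ i, (X i : MvPolynomial (Fin (N + 1)) ℂ) ∉ P := by
  obtain ⟨z, hz⟩ := h
  obtain ⟨i, hi⟩ := Pool.Agent.H92.GT.Proj.exists_coordFun_ne_zero P z hz
  exact ⟨i, Pool.Agent.H17R.coordFun_ne_zero_iff.1 hi⟩

theorem holomorphicInto_of_orderTwo {g : ℂ → PN N} (h : OrderTwo g) : HolomorphicInto g Set.univ := by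
  obtain ⟨F, A, hF, hFg, -⟩ := h
  exact fun z _ => ⟨F, hF.analyticAt z, Filter.Eventually.of_forall hFg⟩

theorem specialIn_of_ggl {T : MvPolynomial (Fin (N + 1)) ℂ} [P.IsPrime] {e : ℕ} (hT : T.IsHomogeneous e) (hTP : T ∉ P)
    (h : GGL P {x | x ∈ projVar P ∧ VanishesAt T x}) : SpecialIn P T := by
  have hb : ∀ f : ℂ → PN N, HolomorphicInto f Set.univ → (∀ z, f z ∈ projVar P) → (∃ z w, f z ≠ f w) → ∀ z, VanishesAt T (f z) :=
    fun f hf hfX hne z => (h.brody f hf hfX hne z).2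
  have hsab := Pool.Agent.GG.sab_vanish (P := P) hT fun g hg hgX hne => hb g (holomorphicInto_of_orderTwo hg) hgX hne
  refine ⟨⟨⟨e, hT⟩, hTP⟩, hb, Pool.Agent.TG.sabSpecialSet_subset hT hsab, ?_⟩
  intro Q _ hQ hPQ hTQ w hw hzw
  obtain ⟨w, rfl⟩ : ∃ w', w = w' + 1 := ⟨w - 1, by omega⟩
  have hX := exists_coord_of_basis hzw
  refine ⟨h.strongly Q hQ hPQ (fun hsub => ?_) (w + 1) hw hzw, ?_⟩
  · obtain ⟨x, hx, hxT⟩ := Pool.Agent.H17EF.exists_point hQ hX hTQ hT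
    exact hxT (hsub hx).2
  · exact Pool.Agent.TG.sabSpecialSet_ne hQ hX hT hTQ fun x hx => hsab x (Pool.Agent.GG.sabUnion_mono (Pool.Agent.GG.projVar_anti hPQ) hx)

theorem specialConclusion_of [P.IsPrime] (hP : Homog P) {J m : ℕ} (hm : 1 ≤ m) {θ : Fin J → SymSec P m} (hθ : Generated θ) {n : ℕ}
    (hdim : ∃ z : Fin (n + 1) → FunField P, IsTranscendenceBasis ℂ z)
    (hex : GeneralType P (n + 1) → ∃ (R : MvPolynomial (Fin (N + 1)) ℂ) (e : ℕ), R.IsHomogeneous e ∧ R ∉ P ∧ Special θ R) : SpecialConclusion P (n + 1) := by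
  refine ⟨?_, (conclusion_of hP hm hθ hdim hex).dense⟩
  intro hgt M P' _ hP' hz' he
  obtain ⟨e⟩ := he
  obtain ⟨R, d, hR, hRP, hRs⟩ := hex hgt
  obtain ⟨z, hz⟩ := id hdim
  obtain ⟨z', hz'⟩ := id hz'
  obtain ⟨T, n', hT, hTP, h⟩ := ggl_up hP hP' hz hz' e (ggl_of_special hP hm hθ hdim hgt hR hRP hRs)
  have hs := specialIn_of_ggl hT hTP h
  refine ⟨(hs.subvarieties P' hP' le_rfl hTP (n + 1) (Nat.succ_le_succ (Nat.zero_le n)) ⟨z', hz'⟩).2, T, hs⟩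

theorem specialConclusion_smooth [P.IsPrime] (hP : Homog P) {J m : ℕ} (hm : 1 ≤ m) {θ : Fin J → SymSec P m} (hθ : Generated θ) {n : ℕ}
    (hdim : ∃ z : Fin (n + 1) → FunField P, IsTranscendenceBasis ℂ z) (hsm : IsSmooth P (n + 1)) : SpecialConclusion P (n + 1) :=
  specialConclusion_of hP hm hθ hdim fun hgt => exists_special hP hm hθ hdim hsm hgt

end Pool.Agent.GT
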