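import Pool.Agent.GT.Defs
import Pool.Agent.TG.SaDefs

/-!
# GT SpcDefs: the conclusion about the special set
-/

set_option autoImplicit false

open MvPolynomial
open Pool.Agent.H17 (PN VanishesAt HolomorphicInto)
open Pool.Agent.H17EF (projVar)
open Pool.Agent.H13.OT (OrderTwo)
open Pool.Agent.H17LG.Variety (FunField)
open Pool.Agent.H62.FC (Homog)
open Pool.Agent.TG (sabSpecialSet)

namespace Pool.Agent.GT

variable {N : ℕ}

/-- The special set of the projective variety `X` given by `P` and all nonconstant entire curves in `X` are contained in `{T = 0}`, which does not contain `X`; every closed subvariety `Z` of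
`X` of positive dimension which is not contained in `{T = 0}` is of general type, and its special set is not `Z`. -/
structure SpecialIn (P : Ideal (MvPolynomial (Fin (N + 1)) ℂ)) (T : MvPolynomial (Fin (N + 1)) ℂ) : Prop where
  form : (∃ e, T.IsHomogeneous e) ∧ T ∉ P
  curves : ∀ f : ℂ → PN N, HolomorphicInto f Set.univ → (∀ z, f z ∈ projVar P) → (∃ z w, f z ≠ f w) → ∀ z, VanishesAt T (f z)
  special : ∀ x ∈ sabSpecialSet (projVar P), VanishesAt T x
  subvarieties : ∀ (Q : Ideal (MvPolynomial (Fin (N + 1)) ℂ)) [Q.IsPrime], Homog Q → P ≤ Q → T ∉ Q → ∀ w, 1 ≤ w → (∃ z : Fin w → FunField Q, IsTranscendenceBasis ℂ z) →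
    GeneralType Q w ∧ sabSpecialSet (projVar Q) ≠ projVar Q

/-- The conclusion, for the projective variety `X` of dimension `n` given by the homogeneous prime ideal `P`. -/
structure SpecialConclusion (P : Ideal (MvPolynomial (Fin (N + 1)) ℂ)) [P.IsPrime] (n : ℕ) : Prop where
  /-- Let `X` be of general type.  The special set of `X` is a proper subset, and so is the special set of every projective variety `X'` of the same dimension with a dominant rational map
  to `X`; more precisely, `X'` has the property `SpecialIn`. -/
  general : GeneralType P n → ∀ (M : ℕ) (P' : Ideal (MvPolynomial (Fin (M + 1)) ℂ)) [P'.IsPrime], Homog P' → (∃ z : Fin n → FunField P', IsTranscendenceBasis ℂ z) →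
    Nonempty (FunField P →ₐ[ℂ] FunField P') → sabSpecialSet (projVar P') ≠ projVar P' ∧ ∃ T, SpecialIn P' T
  /-- If `X` is not of general type, then the nonconstant entire curves of order at most two in `X` are Zariski dense in `X`. -/
  dense : ¬ GeneralType P n → ∀ (R : MvPolynomial (Fin (N + 1)) ℂ) (e : ℕ), R.IsHomogeneous e → R ∉ P →
    ∃ f : ℂ → PN N, HolomorphicInto f Set.univ ∧ OrderTwo f ∧ (∀ z, f z ∈ projVar P) ∧ (∃ z w, f z ≠ f w) ∧ ¬ VanishesAt R (f 0)

end Pool.Agent.GT
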