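import Pool.Agent.GT.Vir
import Pool.Agent.GT.Sing
import Pool.Agent.GV.Fin

/-!
# GT Sub: special sets and virtual domination for all closed subvarieties of a variety with generating symmetric differentials, singular allowed
-/

set_option autoImplicit false

open MvPolynomial
open Pool.Agent.H17LG.Variety (FunField IsLogGeneralType)
open Pool.Agent.H62.FC (Homog)
open Pool.Agent.GG (SymSec)
open Pool.Agent.GB (Generated polar_of_generated)

namespace Pool.Agent.GT

variable {N : ℕ} {P : Ideal (MvPolynomial (Fin (N + 1)) ℂ)} {J m : ℕ} {θ : Fin J → SymSec P m}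

theorem langConclusion_sub (hm : 1 ≤ m) (hθ : Generated θ) (Q : Ideal (MvPolynomial (Fin (N + 1)) ℂ)) [Q.IsPrime] (hQ : Homog Q) (hPQ : P ≤ Q) {n : ℕ}
    (hdim : ∃ z : Fin (n + 1) → FunField Q, IsTranscendenceBasis ℂ z) : LangConclusion Q (n + 1) :=
  langConclusion_of hQ hm (generated_res hPQ hθ) hdim (fun hgt => exists_special_sing hQ hm (generated_res hPQ hθ) hdim hgt) fun hn _ _ hR hRQ =>
    Pool.Agent.GV.exists_abelian_self hQ hm (generated_res hPQ hθ) (Nat.succ_le_succ (Nat.zero_le n)) hdim hn hR hRQ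

end Pool.Agent.GT
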