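import Pool.Agent.GT.Ab
import Pool.Agent.GTL.Et
import Pool.Agent.GTL.EtDn

/-!
# GT Vir: the special sets and finite étale coverings
-/

set_option autoImplicit false

open MvPolynomial Topology Filter
open Pool.Agent.H17 (PN VanishesAt HolomorphicInto vanishesAt_mk_iff ZariskiClosedIn)
open Pool.Agent.H17EF (projVar)
open Pool.Agent.H17LG.Variety (FunField IsLogGeneralType ratio)
open Pool.Agent.H62.FC (Homog closureIn specialSet)
open Pool.Agent.H62.SA (locVar OnBd)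
open Pool.Agent.H62.Qe (IsReg IsEtaleOver)
open Pool.Agent.H66.Lang (line line_zero line_one)
open Pool.Agent.H7.Bir (vals eval_comp vals_smul mem_of_open GGL GGLOpen open_four isGT_of_equiv)
open Pool.Agent.H7.Qup (IsDominantMap)

noncomputable section

namespace Pool.Agent.GT

variable {N M L : ℕ}

theorem locVar_triv (P : Ideal (MvPolynomial (Fin (N + 1)) ℂ)) : locVar P (triv N) = projVar P := by
  ext x
  refine ⟨fun h => h.1, fun h => ⟨h, 0, fun h1 => ?_⟩⟩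
  have h2 : eval x.rep (1 : MvPolynomial (Fin (N + 1)) ℂ) = 0 := h1
  rw [map_one] at h2
  exact one_ne_zero h2

theorem triv_hom : ∀ l, ∃ e, (triv N l).IsHomogeneous e := fun _ => ⟨0, isHomogeneous_one _ _⟩

theorem onBd_triv (P : Ideal (MvPolynomial (Fin (N + 1)) ℂ)) [P.IsPrime] {k : ℕ} : OnBd P (triv N) (k := k) = fun _ => False := by
  funext E
  apply propext
  refine ⟨?_, fun h => h.elim⟩
  rintro ⟨j, -, -, h⟩
  have h1 := h 0
  have h2 : aeval (fun i => ratio P i j) (triv N 0) = 1 := map_one _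
  rw [h2] at h1
  have h3 : E.ord (1 : FunField P) = 0 := by simp
  rw [h3] at h1
  exact lt_irrefl _ h1

theorem generalType_iff {P : Ideal (MvPolynomial (Fin (N + 1)) ℂ)} [P.IsPrime] {k : ℕ} : GeneralType P k ↔ IsLogGeneralType (OnBd P (triv N) (k := k)) := by
  rw [onBd_triv]
  rfl

theorem ggl_of_open {P : Ideal (MvPolynomial (Fin (N + 1)) ℂ)} [P.IsPrime] {Ξ : Set (PN N)} (h : GGLOpen P (triv N) Ξ) : GGL P Ξ := by
  obtain ⟨h1, h2, h3, h4, h5, h6⟩ := h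
  simp only [locVar_triv, onBd_triv] at h1 h2 h3 h4 h5 h6
  exact ⟨h1, h2, h3, h4, h5, h6⟩

/-- forms of positive degree which represent a regular map near a point -/
theorem exists_rep_pos {P : Ideal (MvPolynomial (Fin (N + 1)) ℂ)} {P' : Ideal (MvPolynomial (Fin (M + 1)) ℂ)} {p : PN M → PN N} (hp : IsReg P P' p) {y₀ : PN M}
    (hy₀ : y₀ ∈ projVar P') : ∃ (D : ℕ) (γ : Fin (N + 1) → MvPolynomial (Fin (M + 1)) ℂ), 0 < D ∧ (∀ i, (γ i).IsHomogeneous D) ∧ vals γ y₀.rep ≠ 0 ∧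
      ∀ y ∈ projVar P', vals γ y.rep ≠ 0 → p y = Pool.Agent.H7.Bir.rmap γ y := by
  obtain ⟨D, γ₀, hγ₀, hv₀, hrep₀⟩ := hp.regular y₀ hy₀
  obtain ⟨j, hj⟩ : ∃ j, y₀.rep j ≠ 0 := by
    by_contra hcon
    push Not at hcon
    exact y₀.rep_nonzero (funext hcon)
  have hvals : ∀ y : PN M, vals (fun i => X j * γ₀ i) y.rep = y.rep j • vals γ₀ y.rep := by
    intro y
    funext i
    change eval y.rep (X j * γ₀ i) = y.rep j * eval y.rep (γ₀ i)
    rw [map_mul, eval_X]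
  refine ⟨1 + D, fun i => X j * γ₀ i, by omega, fun i => (isHomogeneous_X ℂ j).mul (hγ₀ i), ?_, ?_⟩
  · rw [hvals]
    exact smul_ne_zero hj hv₀
  · intro y hy hv
    have h1 : vals γ₀ y.rep ≠ 0 := fun h0 => hv (by rw [hvals, h0, smul_zero])
    rw [hrep₀ y hy h1]
    unfold Pool.Agent.H7.Bir.rmap
    rw [dif_pos h1, dif_pos hv, Projectivization.mk_eq_mk_iff']
    have h2 : y.rep j ≠ 0 := fun h0 => hv (by rw [hvals, h0, zero_smul])
    exact ⟨(y.rep j)⁻¹, by rw [hvals, smul_smul, inv_mul_cancel₀ h2, one_smul]⟩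

/-- a form on `X'` pulled back to `X''` -/
theorem exists_pullback {P : Ideal (MvPolynomial (Fin (N + 1)) ℂ)} [P.IsPrime] {P' : Ideal (MvPolynomial (Fin (M + 1)) ℂ)} [P'.IsPrime] (hP : Homog P)
    (hX : ∃ i, (X i : MvPolynomial (Fin (N + 1)) ℂ) ∉ P) {p : PN M → PN N} (hp : IsReg P P' p) {T : MvPolynomial (Fin (N + 1)) ℂ} {n : ℕ} (hT : T.IsHomogeneous n) (hTP : T ∉ P) :
    ∃ (D : ℕ) (γ : Fin (N + 1) → MvPolynomial (Fin (M + 1)) ℂ) (k : Fin (N + 1)), 0 < D ∧ (∀ i, (γ i).IsHomogeneous D) ∧ aeval γ T * γ k ∉ P' ∧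
      (∀ y ∈ projVar P', vals γ y.rep ≠ 0 → p y = Pool.Agent.H7.Bir.rmap γ y) ∧ ∀ y ∈ projVar P', ¬ VanishesAt (aeval γ T * γ k) y → vals γ y.rep ≠ 0 ∧ ¬ VanishesAt T (p y) := by
  obtain ⟨x, hx, hxT⟩ := Pool.Agent.H17EF.exists_point hP hX hTP hT
  obtain ⟨y₀, hy₀, rfl⟩ := hp.surj x hx
  obtain ⟨D, γ, hD, hγ, hv, hrep⟩ := exists_rep_pos hp hy₀
  obtain ⟨k, hk⟩ : ∃ k, eval y₀.rep (γ k) ≠ 0 := by
    by_contra hcon
    push Not at hcon
    exact hv (funext hcon)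
  have hkey : ∀ y ∈ projVar P', ¬ VanishesAt (aeval γ T * γ k) y → vals γ y.rep ≠ 0 ∧ ¬ VanishesAt T (p y) := by
    intro y hy hne
    unfold VanishesAt at hne
    rw [map_mul, mul_eq_zero, not_or] at hne
    have h1 : vals γ y.rep ≠ 0 := fun h0 => hne.2 (congrFun h0 k)
    refine ⟨h1, ?_⟩
    rw [hrep y hy h1, Pool.Agent.H7.Bir.vanishesAt_rmap h1 hT]
    exact hne.1
  refine ⟨D, γ, k, hD, hγ, fun hmem => ?_, hrep, hkey⟩
  have h1 := hy₀ _ hmem (D * n + D) ((hT.aeval γ hγ).mul (hγ k))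
  unfold VanishesAt at h1
  rw [map_mul, mul_eq_zero] at h1
  rcases h1 with h1 | h1
  · apply hxT
    rw [hrep y₀ hy₀ hv, Pool.Agent.H7.Bir.vanishesAt_rmap hv hT]
    exact h1
  · exact hk h1

theorem eventually_not_vanishes {g : ℂ → PN N} {z₀ : ℂ} (hg : HolomorphicInto g Set.univ) {F : MvPolynomial (Fin (N + 1)) ℂ} {n : ℕ} (hF : F.IsHomogeneous n)
    (h : ¬ VanishesAt F (g z₀)) : ∀ᶠ z in 𝓝 z₀, ¬ VanishesAt F (g z) := by
  obtain ⟨φ, hφ, he⟩ := hg z₀ (Set.mem_univ _)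
  have hcont : ContinuousAt (fun w => eval (φ w) F) z₀ := by
    have h1 : AnalyticAt ℂ (fun w => MvPolynomial.aeval (φ w) F) z₀ := AnalyticAt.aeval_mvPolynomial (fun i => analyticAt_pi_iff.mp hφ i) _
    exact h1.continuousAt
  have h0 : eval (φ z₀) F ≠ 0 := by
    obtain ⟨h1, h2⟩ := he.self_of_nhds
    intro h3
    apply h
    rw [h2, vanishesAt_mk_iff hF]
    exact h3
  filter_upwards [he, hcont.eventually_ne h0] with z h1 h2
  obtain ⟨h3, h4⟩ := h1
  rw [h4, vanishesAt_mk_iff hF]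
  exact h2

section

variable {P : Ideal (MvPolynomial (Fin (N + 1)) ℂ)} [P.IsPrime] {P' : Ideal (MvPolynomial (Fin (M + 1)) ℂ)} [P'.IsPrime] {p : PN M → PN N}

/-- general type and étale coverings -/
theorem generalType_etale (hP : Homog P) (hP' : Homog P') {k : ℕ} (hz : ∃ z : Fin (k + 1) → FunField P, IsTranscendenceBasis ℂ z)
    (hp : IsEtaleOver P P' (triv N) (triv M) p) : (∃ z : Fin (k + 1) → FunField P', IsTranscendenceBasis ℂ z) ∧ (GeneralType P (k + 1) ↔ GeneralType P' (k + 1)) := by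
  have hX := coord_of_basis (Nat.succ_le_succ (Nat.zero_le k)) hz
  have hne : (locVar P (triv N)).Nonempty := by
    rw [locVar_triv]
    obtain ⟨i, hi⟩ := hX
    obtain ⟨x, hx, -⟩ := Pool.Agent.H17EF.exists_point hP ⟨i, hi⟩ hi (isHomogeneous_X ℂ i)
    exact ⟨x, hx⟩
  have hz' := Pool.Agent.GTL.basis_etale hP hP' triv_hom triv_hom hne hz hp
  refine ⟨hz', fun h => ?_, fun h => ?_⟩
  · have hne' : (locVar P' (triv M)).Nonempty := by
      obtain ⟨x, hx⟩ := hne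
      obtain ⟨y, hy, -⟩ := hp.reg.surj x hx.1
      rw [locVar_triv]
      exact ⟨y, hy⟩
    have hdom : IsDominantMap P P' (triv N) (triv M) p := by
      refine ⟨?_, ?_, ?_⟩
      · intro y hy
        rw [locVar_triv] at hy ⊢
        exact hp.reg.maps y hy
      · intro y hy
        rw [locVar_triv] at hy ⊢
        exact hp.reg.regular y hy
      · intro Q n hQ hv
        by_contra hQP
        obtain ⟨x, hx, hxQ⟩ := Pool.Agent.H17EF.exists_point hP hX hQP hQ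
        obtain ⟨y, hy, rfl⟩ := hp.reg.surj x hx
        exact hxQ (hv y (by rw [locVar_triv]; exact hy))
    rw [generalType_iff] at h ⊢
    exact Pool.Agent.H7.Qup.logGT_up hdom hP' triv_hom triv_hom hne' hz hz' h
  · rw [generalType_iff] at h ⊢
    exact Pool.Agent.GTL.logGT_etale hP hP' triv_hom triv_hom hne hz hp h

/-- (iii) goes up -/
theorem pseudoBrody_etale (hP : Homog P) (hP' : Homog P') (hX : ∃ i, (X i : MvPolynomial (Fin (N + 1)) ℂ) ∉ P)
    (hX' : ∃ i, (X i : MvPolynomial (Fin (M + 1)) ℂ) ∉ P') (hp : IsEtaleOver P P' (triv N) (triv M) p) (h : PseudoBrody P) : PseudoBrody P' := by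
  obtain ⟨Ξ, hΞc, hΞp, hΞ⟩ := h
  obtain ⟨T, n, hT, hTP, hTΞ⟩ := exists_form hΞc hΞp
  obtain ⟨D, γ, k, -, hγ, hnot, hrep, hkey⟩ := exists_pullback hP hX hp.reg hT hTP
  have hhom : (aeval γ T * γ k).IsHomogeneous (D * n + D) := (hT.aeval γ hγ).mul (hγ k)
  refine ⟨_, closed_form hhom, proper_form hP' hX' hhom hnot, fun f hf hfX hne z => ⟨hfX z, ?_⟩⟩
  by_contra hcon
  have h1 := (hkey _ (hfX z) hcon).2
  refine h1 (hTΞ _ (hΞ (fun z => p (f z)) (Pool.Agent.GTL.comp_reg hp.reg isOpen_univ hf fun z _ => hfX z) (fun z => hp.reg.maps _ (hfX z)) ?_ z))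
  by_contra hc
  push Not at hc
  obtain ⟨a, b, hab⟩ := hne
  exact hab (Pool.Agent.GTL.const_of_comp hp hf (fun z => by rw [locVar_triv]; exact hfX z) hc a b)

omit [P'.IsPrime] in
/-- the curve through two points of the image of a rational map from an abelian variety -/
theorem abelian_curve (R : AbelianRationalMap M) (hR : R.image ⊆ projVar P') {t t' : Fin R.A.g → ℂ} (ht : vals R.γ (R.A.f t).rep ≠ 0)
    (ht' : vals R.γ (R.A.f t').rep ≠ 0) : ∃ g : ℂ → PN M, HolomorphicInto g Set.univ ∧ (∀ z, g z ∈ projVar P') ∧ g 0 = Projectivization.mk ℂ (vals R.γ (R.A.f t).rep) ht ∧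
      g 1 = Projectivization.mk ℂ (vals R.γ (R.A.f t').rep) ht' ∧
      ∀ᶠ z in 𝓝 (0 : ℂ), ∃ s, ∃ h : vals R.γ (R.A.f s).rep ≠ 0, g z = Projectivization.mk ℂ (vals R.γ (R.A.f s).rep) h := by
  have hf := curve_of_abelian R.A t t'
  obtain ⟨i₀, hi₀⟩ : ∃ i, ¬ VanishesAt (R.γ i) (R.A.f (line t t' 0)) := by
    by_contra hcon
    push Not at hcon
    rw [line_zero] at hcon
    exact ht (funext hcon)
  obtain ⟨g, hg, hg1, hg2⟩ := Pool.Agent.H7.Bir.exists_comp R.homogeneous isOpen_univ isPreconnected_univ hf (Set.mem_univ 0) hi₀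
  have hv0 : vals R.γ (R.A.f (line t t' 0)).rep ≠ 0 := fun h0 => hi₀ (congrFun h0 i₀)
  have hg0 : g 0 = Projectivization.mk ℂ (vals R.γ (R.A.f t).rep) ht := by
    rw [hg1 0 (Set.mem_univ _) hv0]
    unfold Pool.Agent.H7.Bir.rmap
    rw [dif_pos hv0]
    simp only [line_zero]
  have hv1 : vals R.γ (R.A.f (line t t' 1)).rep ≠ 0 := by
    rw [line_one]
    exact ht'
  have hg1' : g 1 = Projectivization.mk ℂ (vals R.γ (R.A.f t').rep) ht' := by
    rw [hg1 1 (Set.mem_univ _) hv1]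
    unfold Pool.Agent.H7.Bir.rmap
    rw [dif_pos hv1]
    simp only [line_one]
  have hgX : ∀ z, g z ∈ projVar P' := by
    intro z Q hQ n hn
    obtain ⟨ψ, hψ, he⟩ := hg z (Set.mem_univ z)
    obtain ⟨h1, h2⟩ := he.self_of_nhds
    rw [h2, vanishesAt_mk_iff hn]
    have hcont : ContinuousAt (fun w => eval (ψ w) Q) z := by
      have h1 : AnalyticAt ℂ (fun w => MvPolynomial.aeval (ψ w) Q) z := AnalyticAt.aeval_mvPolynomial (fun i => analyticAt_pi_iff.mp hψ i) Q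
      exact h1.continuousAt
    have h0 : ∀ᶠ w in 𝓝[≠] z, eval (ψ w) Q = 0 := by
      filter_upwards [hg2 z (Set.mem_univ z), he.filter_mono nhdsWithin_le_nhds] with w h3 h4
      obtain ⟨h5, h6⟩ := h3
      obtain ⟨h7, h8⟩ := h4
      have h9 : g w ∈ projVar P' := by
        rw [h6]
        refine hR ⟨line t t' w, h5, ?_⟩
        unfold Pool.Agent.H7.Bir.rmap
        rw [dif_pos h5]
      have h10 := h9 Q hQ n hn
      rwa [h8, vanishesAt_mk_iff hn] at h10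
    exact tendsto_nhds_unique (hcont.tendsto.mono_left nhdsWithin_le_nhds) (tendsto_const_nhds.congr' (h0.mono fun w hw => hw.symm))
  refine ⟨g, hg, hgX, hg0, hg1', ?_⟩
  filter_upwards [eventually_not_vanishes hf (R.homogeneous i₀) hi₀] with z hz
  have hvz : vals R.γ (R.A.f (line t t' z)).rep ≠ 0 := fun h0 => hz (congrFun h0 i₀)
  refine ⟨line t t' z, hvz, ?_⟩
  rw [hg1 z (Set.mem_univ _) hvz]
  unfold Pool.Agent.H7.Bir.rmap
  rw [dif_pos hvz]

/-- **Rational maps from abelian varieties and étale coverings.** -/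
theorem abelianRationalSet_etale (hP : Homog P) (hP' : Homog P') (hX : ∃ i, (X i : MvPolynomial (Fin (N + 1)) ℂ) ∉ P) (hp : IsEtaleOver P P' (triv N) (triv M) p)
    (h : abelianRationalSet (projVar P') = projVar P') : abelianRationalSet (projVar P) = projVar P := by
  refine closureIn_eq_of_dense fun T n hT hTP => ?_
  obtain ⟨D, γ, k, hD, hγ, hnot, hrep, hkey⟩ := exists_pullback (P' := P') hP hX hp.reg hT hTP
  have hhom : (aeval γ T * γ k).IsHomogeneous (D * n + D) := (hT.aeval γ hγ).mul (hγ k)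
  have hX' : ∃ i, (X i : MvPolynomial (Fin (M + 1)) ℂ) ∉ P' := by
    obtain ⟨x, hx, -⟩ := Pool.Agent.H17EF.exists_point hP hX hTP hT
    obtain ⟨y, hy, -⟩ := hp.reg.surj x hx
    exact Pool.Agent.H17EF.exists_coord hy
  -- a rational map to `X'`
  obtain ⟨R, hRX, hRne, x, hxR, hxT⟩ : ∃ R : AbelianRationalMap M, R.image ⊆ projVar P' ∧ (∃ y ∈ R.image, ∃ z ∈ R.image, y ≠ z) ∧
      ∃ x ∈ R.image, ¬ VanishesAt (aeval γ T * γ k) x := by
    by_contra hcon
    obtain ⟨x, hx, hxT⟩ := Pool.Agent.H17EF.exists_point hP' hX' hnot hhom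
    rw [← h] at hx
    refine hxT (closureIn_vanish hhom ?_ x hx)
    rintro y ⟨R, h1, h2, h3⟩
    by_contra hyT
    exact hcon ⟨R, h1, h2, y, h3, hyT⟩
  obtain ⟨t, ht, rfl⟩ := hxR
  -- the composition
  let R' : AbelianRationalMap N := ⟨R.M, R.A, R.D * D, fun i => aeval R.γ (γ i), fun i => (hγ i).aeval R.γ R.homogeneous⟩
  have hcomp : ∀ w, vals R'.γ w = vals γ (vals R.γ w) := by
    intro w
    funext i
    exact eval_comp R.γ (γ i) w
  have hzero : vals γ 0 = 0 := by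
    have h1 := vals_smul hγ 0 (0 : Fin (M + 1) → ℂ)
    rw [zero_smul, zero_pow (by omega), zero_smul] at h1
    exact h1
  have himg : ∀ (s : Fin R.A.g → ℂ) (hs : vals R.γ (R.A.f s).rep ≠ 0), vals γ (Projectivization.mk ℂ (vals R.γ (R.A.f s).rep) hs).rep ≠ 0 →
      p (Projectivization.mk ℂ (vals R.γ (R.A.f s).rep) hs) ∈ R'.image := by
    intro s hs hv
    have h1 : vals γ (vals R.γ (R.A.f s).rep) ≠ 0 := (Pool.Agent.H7.Qup.vals_rep_ne hγ hs).1 hv
    refine ⟨s, ?_, ?_⟩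
    · rw [hcomp]
      exact h1
    · rw [hrep _ (hRX ⟨s, hs, rfl⟩) hv, Pool.Agent.H7.Bir.rmap_mk hγ hs h1]
      congr 1
      exact (hcomp _).symm
  have hR'X : R'.image ⊆ projVar P := by
    rintro x ⟨s, hs, rfl⟩
    have h1 : vals γ (vals R.γ (R.A.f s).rep) ≠ 0 := by
      rw [← hcomp]
      exact hs
    have h2 : vals R.γ (R.A.f s).rep ≠ 0 := fun h0 => h1 (by rw [h0, hzero])
    have h3 : vals γ (Projectivization.mk ℂ (vals R.γ (R.A.f s).rep) h2).rep ≠ 0 := (Pool.Agent.H7.Qup.vals_rep_ne hγ h2).2 h1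
    have h4 := hp.reg.maps _ (hRX ⟨s, h2, rfl⟩)
    rw [hrep _ (hRX ⟨s, h2, rfl⟩) h3, Pool.Agent.H7.Bir.rmap_mk hγ h2 h1] at h4
    have h5 : vals R'.γ (R'.A.f s).rep = vals γ (vals R.γ (R.A.f s).rep) := hcomp _
    simp only [h5]
    exact h4
  obtain ⟨hv, hT'⟩ := hkey _ (hRX ⟨t, ht, rfl⟩) hxT
  refine ⟨_, ⟨R', hR'X, ?_, himg t ht hv⟩, hT'⟩
  by_contra hcon
  push Not at hcon
  obtain ⟨x', ⟨t', ht', rfl⟩, hne⟩ : ∃ x' ∈ R.image, x' ≠ Projectivization.mk ℂ (vals R.γ (R.A.f t).rep) ht := by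
    obtain ⟨y, hy, z, hz, hyz⟩ := hRne
    by_cases h1 : y = Projectivization.mk ℂ (vals R.γ (R.A.f t).rep) ht
    · exact ⟨z, hz, fun h2 => hyz (h1.trans h2.symm)⟩
    · exact ⟨y, hy, h1⟩
  obtain ⟨g, hg, hgX, hg0, hg1, hgn⟩ := abelian_curve R hRX ht ht'
  have hpg : HolomorphicInto (fun z => p (g z)) Set.univ := Pool.Agent.GTL.comp_reg hp.reg isOpen_univ hg fun z _ => hgX z
  obtain ⟨i₀, hi₀⟩ : ∃ i, ¬ VanishesAt (γ i) (g 0) := by
    by_contra hc
    push Not at hc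
    rw [hg0] at hc
    exact hv (funext hc)
  have hconst : ∀ᶠ z in 𝓝 (0 : ℂ), p (g z) = (fun _ => p (g 0)) z := by
    filter_upwards [hgn, eventually_not_vanishes hg (hγ i₀) hi₀] with z h1 h2
    obtain ⟨s, hs, hgs⟩ := h1
    have h3 : vals γ (Projectivization.mk ℂ (vals R.γ (R.A.f s).rep) hs).rep ≠ 0 := by
      intro h0
      apply h2
      rw [hgs]
      exact congrFun h0 i₀
    have h4 := himg s hs h3
    rw [← hgs] at h4
    have h5 := himg t ht hv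
    rw [← hg0] at h5
    exact hcon _ h4 _ h5
  have h1 := Pool.Agent.H7.Bir.pn_identity isPreconnected_univ hpg (const_hol _) (Set.mem_univ 0) hconst
  have h2 := Pool.Agent.GTL.const_of_comp hp hg (fun z => by rw [locVar_triv]; exact hgX z)
    (fun z w => (h1 z (Set.mem_univ z)).trans (h1 w (Set.mem_univ w)).symm) 1 0
  rw [hg0, hg1] at h2
  exact hne h2

end

section

open Pool.Agent.GG (SymSec)
open Pool.Agent.GB (Generated)

/-- a form with the properties of `SpecialForm` goes down along étale coverings -/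
theorem specialForm_etale {P : Ideal (MvPolynomial (Fin (N + 1)) ℂ)} [P.IsPrime] {P' : Ideal (MvPolynomial (Fin (M + 1)) ℂ)} [P'.IsPrime] {p : PN M → PN N}
    (hP : Homog P) (hP' : Homog P') {k : ℕ} (hz : ∃ z : Fin (k + 1) → FunField P, IsTranscendenceBasis ℂ z) (hp : IsEtaleOver P P' (triv N) (triv M) p)
    {Ξ' : Set (PN M)} (h : GGL P' Ξ') : ∃ T, SpecialForm P T := by
  have hX := coord_of_basis (Nat.succ_le_succ (Nat.zero_le k)) hz
  have hne : (locVar P (triv N)).Nonempty := by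
    rw [locVar_triv]
    obtain ⟨i, hi⟩ := hX
    obtain ⟨x, hx, -⟩ := Pool.Agent.H17EF.exists_point hP ⟨i, hi⟩ hi (isHomogeneous_X ℂ i)
    exact ⟨x, hx⟩
  have hne' : (locVar P' (triv M)).Nonempty := by
    obtain ⟨x, hx⟩ := hne
    obtain ⟨y, hy, -⟩ := hp.reg.surj x hx.1
    rw [locVar_triv]
    exact ⟨y, hy⟩
  obtain ⟨Ξ, hΞ⟩ := Pool.Agent.GTL.ggl_etale hP hP' triv_hom triv_hom hne hz hp (open_four hP' triv_hom hne' h)
  have hΞ := ggl_of_open hΞ
  obtain ⟨T, n, hT, hTP, hTΞ⟩ := exists_form hΞ.closed hΞ.proper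
  refine ⟨T, specialForm_of_ggl hT hTP ⟨closed_form hT, proper_form hP hX hT hTP, hΞ.generalType, ?_, ?_, ?_⟩⟩
  · intro f hf hfX hne
    refine hΞ.picard f hf hfX ?_
    obtain ⟨z, hz, hzT⟩ := hne
    exact ⟨z, hz, fun h1 => hzT ⟨hfX z hz, hTΞ _ h1⟩⟩
  · intro f hf hfX hne z
    exact ⟨hfX z, hTΞ _ (hΞ.brody f hf hfX hne z)⟩
  · intro Q _ hQ hPQ hsub w hw hzw
    refine hΞ.strongly Q hQ hPQ (fun h1 => hsub fun x hx => ⟨fun R hR n hn => hx R (hPQ hR) n hn, hTΞ x (h1 hx)⟩) w hw hzw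

theorem langConclusion_of {P : Ideal (MvPolynomial (Fin (N + 1)) ℂ)} [P.IsPrime] (hP : Homog P) {J m : ℕ} (hm : 1 ≤ m) {θ : Fin J → SymSec P m} (hθ : Generated θ) {n : ℕ}
    (hdim : ∃ z : Fin (n + 1) → FunField P, IsTranscendenceBasis ℂ z)
    (hex : GeneralType P (n + 1) → ∃ (R : MvPolynomial (Fin (N + 1)) ℂ) (e : ℕ), R.IsHomogeneous e ∧ R ∉ P ∧ Special θ R)
    (hab : ¬ GeneralType P (n + 1) → DenseAbelian P) : LangConclusion P (n + 1) := by
  refine ⟨?_, ?_, ?_⟩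
  · intro M P' _ hP' hz' hv
    have hX' := coord_of_basis (Nat.succ_le_succ (Nat.zero_le n)) hz'
    rcases hv with ⟨⟨e⟩⟩ | ⟨L, P₁, hP₁p, p, hP₁, hp, ⟨e⟩⟩
    · exact lang_equiv hP hm hθ hdim hex hab hP' e
    · obtain ⟨hz₁, hgt⟩ := generalType_etale hP' hP₁ hz' hp
      have hX₁ := coord_of_basis (Nat.succ_le_succ (Nat.zero_le n)) hz₁
      have h1 := lang_equiv hP hm hθ hdim hex hab hP₁ e
      have hc := (conclusion_of hP hm hθ hdim hex).equiv L P₁ hP₁ ⟨e⟩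
      have hform : GeneralType P' (n + 1) → specialSet (projVar P') ≠ projVar P' ∧ abelianRationalSet (projVar P') ≠ projVar P' := fun h => by
        obtain ⟨T, d, hT, hTP, h2⟩ := lang_ggl hP hm hθ hdim hex (isGT_of_equiv e (hgt.1 h)) hP₁ hz₁ (e.symm : FunField P →ₐ[ℂ] FunField P₁)
        obtain ⟨T', hT'⟩ := specialForm_etale hP' hP₁ hz' hp h2
        exact ne_of_form hP' hz' hT'
      refine ⟨⟨fun h => hgt.2 (hc.2.1.2 (pseudoBrody_etale hP' hP₁ hX' hX₁ hp (pseudoBrody_of_specialSet h))), fun h => (hform h).1⟩,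
        ⟨fun h => ?_, fun h => (hform h).2⟩⟩
      refine hgt.2 (h1.2.1 fun h2 => h (abelianRationalSet_etale hP' hP₁ hX' hp h2))
  · intro hgt M P' _ hP' hz' hv
    rcases hv with ⟨⟨e⟩⟩ | ⟨L, P₁, hP₁p, p, hP₁, hp, ⟨e⟩⟩
    · exact lang_form hP hm hθ hdim hex hgt hP' hz' e
    · obtain ⟨hz₁, -⟩ := generalType_etale hP' hP₁ hz' hp
      obtain ⟨T, d, hT, hTP, h2⟩ := lang_ggl hP hm hθ hdim hex hgt hP₁ hz₁ e
      exact specialForm_etale hP' hP₁ hz' hp h2
  · intro hn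
    refine closureIn_eq_of_dense fun T d hT hTP => ?_
    obtain ⟨A, hA, hA0⟩ := hab hn T d hT hTP
    exact ⟨A.f 0, ⟨A, hA, 0, rfl⟩, hA0⟩

end

end Pool.Agent.GT
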